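import Pool.Agent.TauGp.CH.Regroup

/-!
# The transfinite recursion
-/

set_option autoImplicit false

namespace Pool.Agent.TauGp.CH

/-- almost inclusion of the sets of stars -/
def Sub (x y : Pt) : Prop := ∃ m, ∀ i, m ≤ i → x i = 2 → y i = 2

lemma Sub.trans {x y z : Pt} (h : Sub x y) (h' : Sub y z) : Sub x z := by
  obtain ⟨m, hm⟩ := h
  obtain ⟨m', hm'⟩ := h'
  exact ⟨max m m', fun i hi hx => hm' i (le_of_max_le_right hi) (hm i (le_of_max_le_left hi) hx)⟩

lemma EvEq.sub {x y : Pt} (h : EvEq x y) : Sub x y := by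
  obtain ⟨m, hm⟩ := h
  exact ⟨m, fun i hi hx => (hm i hi).symm.trans hx⟩

lemma Comp.Sub {x : Pt} {C : Cond} (h : Comp x C) : Sub x C.w := h.sub

lemma countable_evEq (w : Pt) : {x | EvEq x w}.Countable := by
  have : {x | EvEq x w} ⊆ ⋃ n, Set.range fun x : Pt => mix n x w := by
    rintro x ⟨n, hn⟩
    refine Set.mem_iUnion.2 ⟨n, x, ?_⟩
    funext i
    simp only [mix]
    split_ifs with h
    · rfl
    · exact (hn i (not_lt.1 h)).symm
  exact (Set.countable_iUnion fun n => (finite_mix n w).countable).mono this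

lemma evEq_mix (k : ℕ) (s w : Pt) : EvEq (mix k s w) w := ⟨k, fun _ hi => mix_ge hi⟩

/-- the outcome of one stage -/
structure StageOK (C : Cond) (Q : Set Pt) (O : ℕ → ℕ → Set Pt) (A : Set ℕ) (g : ℕ → ℕ)
    (D : Cond) (P : Set Pt) : Prop where
  count : P.Countable
  nonempty : P.Nonempty
  le : Le D C
  comp : ∀ x ∈ P, Comp x C
  subw : ∀ x ∈ P, Sub D.w x
  lin : ∀ x ∈ P, ∀ y ∈ P, Sub x y ∨ Sub y x
  closed : ∀ x ∈ P, ∀ y, EvEq y x → y ∈ P
  twin : A.Infinite → ∃ x ∈ P, ∃ y ∈ P, {n | n ∈ A ∧ Late g n x ∧ y n ≠ 1}.Infinite ∧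
    {n | n ∈ A ∧ Late g n y ∧ x n ≠ 1}.Infinite
  cover : (∀ k, ∀ q ∈ Q ∪ P, ∃ i, q ∈ O k i) → ∃ (f : ℕ → ℕ) (K : ℕ → Finset ℕ) (a b : ℕ → ℕ),
    Blocks a b ∧ (∀ l, ∀ k ∈ K l, l ≤ k) ∧ (∀ q ∈ Q ∪ P, Dich O f K a b q) ∧
    ∀ x, Comp x D → Dich O f K a b x

theorem stage (C : Cond) (Q : Set Pt) (O : ℕ → ℕ → Set Pt) (A : Set ℕ) (g : ℕ → ℕ) :
    ∃ (D : Cond) (P : Set Pt), Q.Countable → (∀ k i, IsOpen (O k i)) →
      StageOK C Q O A g D P := by
  classical
  by_cases hQ : Q.Countable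
  swap
  · exact ⟨C, ∅, fun h => absurd h hQ⟩
  by_cases hO : ∀ k i, IsOpen (O k i)
  swap
  · exact ⟨C, ∅, fun _ h => absurd h hO⟩
  -- a step for the cover
  obtain ⟨C₁, hC₁, hcov⟩ : ∃ C₁ : Cond, Le C₁ C ∧
      ((∀ k, ∀ q ∈ Q ∪ {x | EvEq x C.w}, ∃ i, q ∈ O k i) →
        ∃ (f : ℕ → ℕ) (K : ℕ → Finset ℕ) (a b : ℕ → ℕ),
        Blocks a b ∧ (∀ l, ∀ k ∈ K l, l ≤ k) ∧
        (∀ q ∈ Q ∪ {x | EvEq x C.w}, Dich O f K a b q) ∧ ∀ x, Comp x C₁ → Dich O f K a b x) := by
    by_cases hc : ∀ k, ∀ q ∈ Q ∪ {x | EvEq x C.w}, ∃ i, q ∈ O k i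
    · obtain ⟨C', f, K, a, b, h1, h2, h3, h4, h5⟩ := one_step C (Q ∪ {x | EvEq x C.w})
        (hQ.union (countable_evEq C.w)) (fun k s => Or.inr (evEq_mix k s C.w)) O hO hc
      exact ⟨C', h1, fun _ => ⟨f, K, a, b, h2, h3, fun q hq => Or.inl (h4 q hq), h5⟩⟩
    · exact ⟨C, Le.refl C, fun h => absurd h hc⟩
  -- the twins
  obtain ⟨D, y, hDle, hyC₁, hstar, htwin⟩ : ∃ (D : Cond) (y : Pt), Le D C₁ ∧ Comp y C₁ ∧
      (∃ m, ∀ i, m ≤ i → (y i = 2 ↔ D.w i = 2)) ∧ (A.Infinite →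
      {n | n ∈ A ∧ Late g n D.w ∧ y n ≠ 1}.Infinite ∧
      {n | n ∈ A ∧ Late g n y ∧ D.w n ≠ 1}.Infinite) := by
    by_cases hA : A.Infinite
    · obtain ⟨D, y, h1, h2, h3, h4, h5⟩ := exists_twin C₁ A hA g
      exact ⟨D, y, h1, h2, h3, fun _ => ⟨h4, h5⟩⟩
    · exact ⟨C₁, C₁.w, Le.refl _, C₁.comp_w, ⟨0, fun _ _ => Iff.rfl⟩, fun h => absurd h hA⟩
  have hDy : Sub D.w y := by
    obtain ⟨m, hm⟩ := hstar
    exact ⟨m, fun i hi hx => (hm i hi).2 hx⟩
  have hyD : Sub y D.w := by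
    obtain ⟨m, hm⟩ := hstar
    exact ⟨m, fun i hi hx => (hm i hi).1 hx⟩
  have hDw : Comp D.w C := (D.comp_w.mono hDle).mono hC₁
  have hDC : Sub D.w C.w := hDw.Sub
  have hyC : Comp y C := hyC₁.mono hC₁
  let P : Set Pt := {x | EvEq x C.w} ∪ ({x | EvEq x D.w} ∪ {x | EvEq x y})
  have hsubP : ∀ x ∈ P, Sub D.w x := by
    rintro x (hx | hx | hx)
    · exact hDC.trans hx.symm.sub
    · exact hx.symm.sub
    · exact hDy.trans hx.symm.sub
  refine ⟨D, P, fun _ _ => ⟨?_, ⟨C.w, Or.inl (EvEq.refl _)⟩, hDle.trans hC₁, ?_, hsubP, ?_, ?_,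
    ?_, ?_⟩⟩
  · exact (countable_evEq _).union ((countable_evEq _).union (countable_evEq _))
  · rintro x (hx | hx | hx)
    · exact C.comp_w.congr hx.symm
    · exact hDw.congr hx.symm
    · exact hyC.congr hx.symm
  · rintro x hx y' hy'
    -- either both come from `C.w`, or one of them has almost the stars of `D.w`
    rcases hx with hx | hx
    · rcases hy' with hy' | hy'
      · exact Or.inl (hx.trans hy'.symm).sub
      · right
        have h1 : Sub y' D.w := by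
          rcases hy' with hy' | hy'
          · exact hy'.sub
          · exact hy'.sub.trans hyD
        exact (h1.trans hDC).trans hx.symm.sub
    · left
      have h1 : Sub x D.w := by
        rcases hx with hx | hx
        · exact hx.sub
        · exact hx.sub.trans hyD
      exact h1.trans (hsubP y' hy')
  · rintro x (hx | hx | hx) z hz
    · exact Or.inl (hz.trans hx)
    · exact Or.inr (Or.inl (hz.trans hx))
    · exact Or.inr (Or.inr (hz.trans hx))
  · intro hA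
    exact ⟨D.w, Or.inr (Or.inl (EvEq.refl _)), y, Or.inr (Or.inr (EvEq.refl _)), htwin hA⟩
  · intro hc
    obtain ⟨f, K, a, b, h1, h2, h3, h4⟩ := hcov fun k q hq => hc k q (by
      rcases hq with hq | hq
      · exact Or.inl hq
      · exact Or.inr (Or.inl hq))
    refine ⟨f, K, a, b, h1, h2, ?_, fun x hx => h4 x (hx.mono hDle)⟩
    rintro q (hq | hq | hq | hq)
    · exact h3 q (Or.inl hq)
    · exact h3 q (Or.inr hq)
    · exact h4 q ((D.comp_w.mono hDle).congr hq.symm)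
    · exact h4 q (hyC₁.congr hq.symm)

/-- open sets coded by sets of natural numbers -/
def decode (B : ℕ → Set Pt) (A : Set ℕ) : Set Pt := ⋃ j ∈ A, B j

/-- the tasks -/
abbrev Task : Type := (ℕ → ℕ → Set ℕ) × Set ℕ × (ℕ → ℕ)

section Rec

variable {ι : Type} [LinearOrder ι] [WellFoundedLT ι] (task : ι → Task) (B : ℕ → Set Pt)

/-- lower bound -/
noncomputable def lowb (X : Set Cond) : Cond :=
  open Classical in if h : ∃ D : Cond, ∀ C ∈ X, Le D C then h.choose else Cond.top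

lemma lowb_spec {X : Set Cond} (h : ∃ D : Cond, ∀ C ∈ X, Le D C) : ∀ C ∈ X, Le (lowb X) C := by
  unfold lowb
  rw [dif_pos h]
  exact h.choose_spec

/-- the value of a stage -/
noncomputable def stageVal (C : Cond) (Q : Set Pt) (t : Task) : Cond × Set Pt :=
  ⟨(stage C Q (fun k i => decode B (t.1 k i)) t.2.1 t.2.2).choose,
    (stage C Q (fun k i => decode B (t.1 k i)) t.2.1 t.2.2).choose_spec.choose⟩

lemma stageVal_spec (hB : ∀ j, IsOpen (B j)) (C : Cond) (Q : Set Pt) (hQ : Q.Countable)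
    (t : Task) : StageOK C Q (fun k i => decode B (t.1 k i)) t.2.1 t.2.2 (stageVal B C Q t).1
      (stageVal B C Q t).2 :=
  (stage C Q (fun k i => decode B (t.1 k i)) t.2.1 t.2.2).choose_spec.choose_spec hQ
    fun _ _ => isOpen_biUnion fun j _ => hB j

/-- The recursion. -/
noncomputable def val : ι → Cond × Set Pt :=
  (wellFounded_lt (α := ι)).fix fun α ih =>
    stageVal B (lowb (Set.range fun β : Set.Iio α => (ih β.1 β.2).1))
      (⋃ β : Set.Iio α, (ih β.1 β.2).2) (task α)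

/-- lower bound of the earlier conditions -/
noncomputable def pre (α : ι) : Cond := lowb (Set.range fun β : Set.Iio α => (val task B β.1).1)

/-- the earlier points -/
noncomputable def prePts (α : ι) : Set Pt := ⋃ β : Set.Iio α, (val task B β.1).2

lemma val_eq (α : ι) : val task B α = stageVal B (pre task B α) (prePts task B α) (task α) :=
  WellFounded.fix_eq _ _ _

variable {task B}

lemma rec_spec (hB : ∀ j, IsOpen (B j)) (hι : ∀ α : ι, (Set.Iio α).Countable) (α : ι) :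
    (∀ β < α, Le (pre task B α) (val task B β).1) ∧ (prePts task B α).Countable := by
  induction α using WellFoundedLT.induction with
  | ind α ih =>
  have hst : ∀ β < α, StageOK (pre task B β) (prePts task B β)
      (fun k i => decode B ((task β).1 k i)) (task β).2.1 (task β).2.2 (val task B β).1
      (val task B β).2 := by
    intro β hβ
    rw [val_eq]
    exact stageVal_spec B hB _ _ (ih β hβ).2 _
  have hdec : ∀ β < α, ∀ γ ≤ β, Le (val task B β).1 (val task B γ).1 := by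
    intro β hβ γ hγ
    rcases hγ.lt_or_eq with h | rfl
    · exact (hst β hβ).le.trans ((ih β hβ).1 γ h)
    · exact Le.refl _
  constructor
  · have hex : ∃ D : Cond, ∀ C ∈ Set.range (fun β : Set.Iio α => (val task B β.1).1), Le D C := by
      by_cases hne : (Set.Iio α).Nonempty
      · obtain ⟨e, he⟩ := (hι α).exists_eq_range hne
        -- running maxima
        have hps : ∀ l, partialSups e l < α := by
          intro l
          induction l with
          | zero =>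
            rw [partialSups_zero]
            exact (he ▸ Set.mem_range_self 0 : e 0 ∈ Set.Iio α)
          | succ l ihl =>
            rw [partialSups_add_one]
            exact max_lt ihl (he ▸ Set.mem_range_self (l + 1) : e (l + 1) ∈ Set.Iio α)
        obtain ⟨D, hD⟩ := exists_lower_bound (fun l => (val task B (partialSups e l)).1)
          fun l => hdec _ (hps (l + 1)) _ ((partialSups e).monotone (Nat.le_succ l))
        refine ⟨D, ?_⟩
        rintro _ ⟨⟨β, hβ⟩, rfl⟩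
        rw [he] at hβ
        obtain ⟨l, rfl⟩ := hβ
        exact (hD l).trans (hdec _ (hps l) _ (le_partialSups e l))
      · refine ⟨Cond.top, ?_⟩
        rintro _ ⟨⟨β, hβ⟩, rfl⟩
        exact absurd ⟨β, hβ⟩ hne
    intro β hβ
    exact lowb_spec hex _ ⟨⟨β, hβ⟩, rfl⟩
  · have := (hι α).to_subtype
    exact Set.countable_iUnion fun β => (hst β.1 β.2).count

lemma rec_stage (hB : ∀ j, IsOpen (B j)) (hι : ∀ α : ι, (Set.Iio α).Countable) (α : ι) :
    StageOK (pre task B α) (prePts task B α) (fun k i => decode B ((task α).1 k i)) (task α).2.1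
      (task α).2.2 (val task B α).1 (val task B α).2 := by
  rw [val_eq]
  exact stageVal_spec B hB _ _ (rec_spec hB hι α).2 _

end Rec

/-- The combinatorial properties of the space. -/
structure Good (X : Set Pt) : Prop where
  nonempty : X.Nonempty
  closed : ∀ x ∈ X, ∀ y, EvEq y x → y ∈ X
  star : ∀ x ∈ X, ∀ n, ∃ i, n ≤ i ∧ x i = 2
  lin : ∀ x ∈ X, ∀ y ∈ X, Sub x y ∨ Sub y x
  twin : ∀ A : Set ℕ, A.Infinite → ∀ g : ℕ → ℕ, ∃ x ∈ X, ∃ y ∈ X,
    {n | n ∈ A ∧ Late g n x ∧ y n ≠ 1}.Infinite ∧ {n | n ∈ A ∧ Late g n y ∧ x n ≠ 1}.Infinite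
  cover : ∀ O : ℕ → ℕ → Set Pt, (∀ k i, IsOpen (O k i)) → (∀ k, ∀ q ∈ X, ∃ i, q ∈ O k i) →
    ∃ (f : ℕ → ℕ) (K : ℕ → Finset ℕ) (a b : ℕ → ℕ),
    Blocks a b ∧ (∀ l, ∀ k ∈ K l, l ≤ k) ∧ ∀ q ∈ X, Dich O f K a b q

theorem exists_good (hCH : Cardinal.continuum.{0} = Cardinal.aleph 1) : ∃ X : Set Pt, Good X := by
  classical
  obtain ⟨B', hB'c, -, hB'⟩ := TopologicalSpace.exists_countable_basis Pt
  have hB'ne : B'.Nonempty := by
    by_contra h
    have h1 := hB'.sUnion_eq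
    rw [Set.not_nonempty_iff_eq_empty.1 h, Set.sUnion_empty] at h1
    have h2 : (fun _ => 0 : Pt) ∈ (∅ : Set Pt) := h1 ▸ Set.mem_univ _
    exact h2
  obtain ⟨B, rfl⟩ := hB'c.exists_eq_range hB'ne
  have hBo : ∀ j, IsOpen (B j) := fun j => hB'.isOpen ⟨j, rfl⟩
  have hdecode : ∀ O : Set Pt, IsOpen O → ∃ A : Set ℕ, decode B A = O := by
    intro O hO
    refine ⟨{j | B j ⊆ O}, ?_⟩
    apply subset_antisymm
    · exact Set.iUnion₂_subset fun j hj => hj
    · intro x hx
      obtain ⟨_, ⟨j, rfl⟩, h1, h2⟩ := hB'.exists_subset_of_mem_open hx hO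
      exact Set.mem_biUnion (show j ∈ {j | B j ⊆ O} from h2) h1
  -- the index type
  let ι : Type := (Cardinal.aleph.{0} 1).ord.ToType
  have hι : ∀ α : ι, (Set.Iio α).Countable := by
    intro α
    have h1 : Cardinal.mk (Set.Iio α) < Cardinal.mk ι := Cardinal.mk_Iio_lt α (by
      simp [ι])
    rw [Cardinal.mk_ord_toType] at h1
    have h2 : Cardinal.mk (Set.Iio α) < Order.succ Cardinal.aleph0 :=
      h1.trans_eq Cardinal.succ_aleph0.symm
    rw [← Cardinal.le_aleph0_iff_set_countable]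
    exact Order.lt_succ_iff.1 h2
  have hcard : Cardinal.mk Task ≤ Cardinal.mk ι := by
    have h1 : Cardinal.mk Task = Cardinal.continuum := by simp [Task]
    rw [h1, hCH, Cardinal.mk_ord_toType]
  obtain ⟨task, htask⟩ : ∃ t : ι → Task, Function.Surjective t := by
    obtain ⟨f⟩ := hcard
    exact ⟨Function.invFun f, Function.invFun_surjective f.injective⟩
  have hst := fun α => rec_stage (task := task) hBo hι α
  have hsp := fun α => rec_spec (task := task) hBo hι α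
  have hmem : ∀ x, x ∈ (⋃ α, (val task B α).2) ↔ ∃ α, x ∈ (val task B α).2 := fun x =>
    Set.mem_iUnion
  -- points of later stages
  have hlater : ∀ α β, α < β → ∀ x ∈ (val task B β).2, Comp x (val task B α).1 := by
    intro α β h x hx
    exact ((hst β).comp x hx).mono ((hsp β).1 α h)
  have hlin : ∀ α β, α < β → ∀ x ∈ (val task B α).2, ∀ y ∈ (val task B β).2, Sub y x := by
    intro α β h x hx y hy
    exact (hlater α β h y hy).Sub.trans ((hst α).subw x hx)
  let α₀ : ι := (Function.surjInv htask) ⟨fun _ _ => ∅, ∅, fun _ => 0⟩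
  refine ⟨⋃ α, (val task B α).2, ⟨?_, ?_, ?_, ?_, ?_, ?_⟩⟩
  · obtain ⟨x, hx⟩ := (hst α₀).nonempty
    exact ⟨x, (hmem x).2 ⟨α₀, hx⟩⟩
  · intro x hx y hy
    obtain ⟨α, hα⟩ := (hmem x).1 hx
    exact (hmem y).2 ⟨α, (hst α).closed x hα y hy⟩
  · intro x hx n
    obtain ⟨α, hα⟩ := (hmem x).1 hx
    exact ((hst α).comp x hα).star n
  · intro x hx y hy
    obtain ⟨α, hα⟩ := (hmem x).1 hx
    obtain ⟨β, hβ⟩ := (hmem y).1 hy
    rcases lt_trichotomy α β with h | h | h
    · exact Or.inr (hlin α β h x hα y hβ)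
    · subst h
      exact (hst α).lin x hα y hβ
    · exact Or.inl (hlin β α h y hβ x hα)
  · intro A hA g
    obtain ⟨α, hα⟩ := htask ⟨fun _ _ => ∅, A, g⟩
    have h := (hst α).twin
    rw [hα] at h
    obtain ⟨x, hx, y, hy, h1, h2⟩ := h hA
    exact ⟨x, (hmem x).2 ⟨α, hx⟩, y, (hmem y).2 ⟨α, hy⟩, h1, h2⟩
  · intro O hO hc
    choose t ht using fun k i => hdecode (O k i) (hO k i)
    obtain ⟨α, hα⟩ := htask ⟨t, ∅, fun _ => 0⟩
    have h := (hst α).cover
    rw [hα] at h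
    simp only [ht] at h
    obtain ⟨f, K, a, b, h1, h2, h3, h4⟩ := h (by
      intro k q hq
      refine hc k q ((hmem q).2 ?_)
      rcases hq with hq | hq
      · obtain ⟨β, hβ⟩ := Set.mem_iUnion.1 hq
        exact ⟨β.1, hβ⟩
      · exact ⟨α, hq⟩)
    refine ⟨f, K, a, b, h1, h2, fun q hq => ?_⟩
    obtain ⟨β, hβ⟩ := (hmem q).1 hq
    rcases lt_trichotomy α β with h | h | h
    · exact h4 q (hlater α β h q hβ)
    · subst h
      exact h3 q (Or.inr hβ)
    · exact h3 q (Or.inl (Set.mem_iUnion.2 ⟨⟨β, h⟩, hβ⟩))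

end Pool.Agent.TauGp.CH
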