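import Pool.Agent.TauGp.Defs
import Pool.Agent.TauGp.CH.Recursion

/-!
# Selection properties of the space
-/

set_option autoImplicit false

namespace Pool.Agent.TauGp.CH

open Pool.Agent.TauGp

variable {X : Set Pt}

theorem Good.ufinTauDecreasing (hX : Good X) : UfinTauDecreasing X := by
  classical
  intro 𝒰 h𝒰 hdec
  obtain ⟨x₀, hx₀⟩ := hX.nonempty
  have hanti : ∀ l d, 𝒰 (l + d) ⊆ 𝒰 l := by
    intro l d
    induction d with
    | zero => exact subset_rfl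
    | succ d ih => exact (hdec (l + d)).trans ih
  -- countable subcovers
  have h1 : ∀ n, ∃ O : ℕ → Set Pt, (∀ i, IsOpen (O i)) ∧
      (∀ i, (Subtype.val ⁻¹' O i : Set X) ∈ 𝒰 n) ∧ ∀ x : X, ∃ i, x.1 ∈ O i := by
    intro n
    obtain ⟨T, hTc, hTs, hTu⟩ := TopologicalSpace.isOpen_sUnion_countable (𝒰 n) (h𝒰 n).1.1
    rw [(h𝒰 n).1.2.1] at hTu
    have hTne : T.Nonempty := by
      have : (⟨x₀, hx₀⟩ : X) ∈ ⋃₀ T := hTu ▸ Set.mem_univ _
      obtain ⟨t, ht, -⟩ := this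
      exact ⟨t, ht⟩
    obtain ⟨t, rfl⟩ := hTc.exists_eq_range hTne
    have h2 : ∀ i, ∃ O : Set Pt, IsOpen O ∧ Subtype.val ⁻¹' O = t i := fun i =>
      isOpen_induced_iff.1 ((h𝒰 n).1.1 (t i) (hTs ⟨i, rfl⟩))
    choose O hO hO' using h2
    refine ⟨O, hO, fun i => by rw [hO']; exact hTs ⟨i, rfl⟩, fun x => ?_⟩
    have : x ∈ ⋃₀ Set.range t := hTu ▸ Set.mem_univ x
    obtain ⟨_, ⟨i, rfl⟩, hi⟩ := this
    rw [← hO'] at hi
    exact ⟨i, hi⟩
  choose O hO hO𝒰 hOc using h1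
  obtain ⟨f, K, a, b, hab, hK, hD⟩ := hX.cover O hO fun k q hq => hOc k ⟨q, hq⟩
  have hmem : ∀ l (x : X), x ∈ ⋃₀ {V : Set X | ∃ k ∈ K l, ∃ i ≤ f k, V = Subtype.val ⁻¹' O k i} ↔
      x.1 ∈ GU O f (K l) := by
    intro l x
    constructor
    · rintro ⟨_, ⟨k, hk, i, hi, rfl⟩, hx⟩
      exact ⟨k, hk, i, hi, hx⟩
    · rintro ⟨k, hk, i, hi, hx⟩
      exact ⟨_, ⟨k, hk, i, hi, rfl⟩, hx⟩
  have hfin : ∀ l, {V : Set X | ∃ k ∈ K l, ∃ i ≤ f k, V = Subtype.val ⁻¹' O k i}.Finite := by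
    intro l
    refine (((K l).finite_toSet.biUnion fun k _ =>
      ((Set.finite_Iic (f k)).image fun i => (Subtype.val ⁻¹' O k i : Set X)))).subset ?_
    rintro _ ⟨k, hk, i, hi, rfl⟩
    exact Set.mem_biUnion (show k ∈ (K l : Set ℕ) from hk) ⟨i, hi, rfl⟩
  have hsub : ∀ l, {V : Set X | ∃ k ∈ K l, ∃ i ≤ f k, V = Subtype.val ⁻¹' O k i} ⊆ 𝒰 l := by
    rintro l _ ⟨k, hk, i, hi, rfl⟩
    obtain ⟨d, rfl⟩ := Nat.exists_eq_add_of_le (hK l k hk)
    exact hanti l d (hO𝒰 _ i)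
  refine ⟨fun l => {V | ∃ k ∈ K l, ∃ i ≤ f k, V = Subtype.val ⁻¹' O k i},
    fun l => ⟨hfin l, hsub l⟩, ⟨?_, ?_, ?_, ?_⟩⟩
  · intro l
    exact isOpen_sUnion fun V hV => (h𝒰 l).1.1 V (hsub l hV)
  · intro l hl
    exact (h𝒰 l).2 ⟨_, hfin l, hsub l, hl⟩
  · intro x
    simp only [hmem]
    rcases hD x.1 x.2 with ⟨N, hN⟩ | ⟨N, hN⟩
    · exact (Set.Ici_infinite N).mono fun l hl => hN l hl
    · rw [Set.infinite_iff_exists_gt]
      intro L
      obtain ⟨M, hM⟩ := hab.cov (max N (L + 1))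
      obtain ⟨i, hi, hi'⟩ := hX.star x.1 x.2 M
      obtain ⟨l, h1, h2, h3⟩ := hM i hi
      exact ⟨l, (hN l (le_of_max_le_left h1)).2 ⟨i, h2, h3, hi'⟩,
        lt_of_lt_of_le (Nat.lt_succ_self L) (le_of_max_le_right h1)⟩
  · -- comparability
    have key : ∀ x y : X, Sub x.1 y.1 →
        {n | x.1 ∈ GU O f (K n) ∧ ¬ y.1 ∈ GU O f (K n)}.Finite ∨
        {n | y.1 ∈ GU O f (K n) ∧ ¬ x.1 ∈ GU O f (K n)}.Finite := by
      rintro x y ⟨m, hm⟩
      rcases hD y.1 y.2 with ⟨N, hN⟩ | ⟨N, hN⟩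
      · left
        refine (Set.finite_Iio N).subset fun l hl => ?_
        by_contra hcon
        exact hl.2 (hN l (not_lt.1 hcon))
      · rcases hD x.1 x.2 with ⟨N', hN'⟩ | ⟨N', hN'⟩
        · right
          refine (Set.finite_Iio N').subset fun l hl => ?_
          by_contra hcon
          exact hl.2 (hN' l (not_lt.1 hcon))
        · left
          refine (Set.finite_Iio (max m (max N N'))).subset fun l hl => ?_
          by_contra hcon
          have hcon' : max m (max N N') ≤ l := not_lt.1 hcon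
          obtain ⟨i, h1, h2, h3⟩ := (hN' l
            ((le_max_right _ _).trans ((le_max_right _ _).trans hcon'))).1 hl.1
          refine hl.2 ((hN l ((le_max_left _ _).trans ((le_max_right _ _).trans hcon'))).2
            ⟨i, h1, h2, hm i ?_ h3⟩)
          exact ((le_max_left _ _).trans hcon').trans ((hab.le l).trans h1)
    intro x y
    simp only [hmem]
    rcases hX.lin x.1 x.2 y.1 y.2 with h | h
    · exact key x y h
    · exact (key y x h).symm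

/-- the sets showing that `U_fin(O, T)` fails -/
def Un (X : Set Pt) (n m : ℕ) : Set X := {x | x.1 n ≠ 1 ∨ ∃ i, n < i ∧ i ≤ m ∧ x.1 i = 2}

lemma Un_mono (n : ℕ) {m m' : ℕ} (h : m ≤ m') : Un X n m ⊆ Un X n m' := by
  rintro x (hx | ⟨i, h1, h2, h3⟩)
  · exact Or.inl hx
  · exact Or.inr ⟨i, h1, h2.trans h, h3⟩

lemma isOpen_Un (n m : ℕ) : IsOpen (Un X n m) := by
  have h : Un X n m = (Subtype.val ⁻¹' ((fun x : Pt => x n) ⁻¹' {1}ᶜ ∪
      ⋃ i ∈ Set.Ioc n m, (fun x : Pt => x i) ⁻¹' {2}) : Set X) := by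
    ext x
    simp [Un, and_assoc]
  rw [h]
  refine IsOpen.preimage continuous_subtype_val (IsOpen.union ?_ (isOpen_biUnion fun i _ => ?_))
  · exact (isOpen_discrete _).preimage (continuous_apply n)
  · exact (isOpen_discrete _).preimage (continuous_apply i)

lemma sUnion_Un {n : ℕ} {𝓕 : Set (Set X)} (hf : 𝓕.Finite) (hs : 𝓕 ⊆ Set.range (Un X n)) :
    𝓕 = ∅ ∨ ∃ m, ⋃₀ 𝓕 = Un X n m := by
  induction 𝓕, hf using Set.Finite.induction_on with
  | empty => exact Or.inl rfl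
  | @insert V 𝓖 _ _ ih =>
    right
    obtain ⟨m, hm⟩ := hs (Set.mem_insert V 𝓖)
    rw [Set.sUnion_insert, ← hm]
    rcases ih ((Set.subset_insert V 𝓖).trans hs) with rfl | ⟨m', hm'⟩
    · exact ⟨m, by simp⟩
    · refine ⟨max m m', ?_⟩
      rw [hm']
      rcases le_total m m' with h | h
      · rw [max_eq_right h, Set.union_eq_right]
        exact Un_mono n h
      · rw [max_eq_left h, Set.union_eq_left]
        exact Un_mono n h

theorem Good.not_ufinTau (hX : Good X) : ¬ UfinTau X := by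
  classical
  intro h
  obtain ⟨x₀, hx₀⟩ := hX.nonempty
  have hne : ∀ n m, Un X n m ≠ Set.univ := by
    intro n m hu
    let y : Pt := mix (max n m + 1) (fun _ => 1) x₀
    have hy : y ∈ X := hX.closed x₀ hx₀ y (evEq_mix _ _ _)
    have hy' : (⟨y, hy⟩ : X) ∈ Un X n m := hu ▸ Set.mem_univ _
    rcases hy' with h1 | ⟨i, h1, h2, h3⟩
    · have h2 : n < max n m + 1 := by omega
      have h3 : y n = 1 := mix_lt h2
      exact h1 h3
    · have h5 : i < max n m + 1 := by omega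
      have h4 : y i = 1 := mix_lt h5
      change y i = 2 at h3
      rw [h4] at h3
      exact absurd h3 (by decide)
  obtain ⟨𝓕, h𝓕, hop, hnu, hinf, hcomp⟩ := h (fun n => Set.range (Un X n)) fun n => by
    refine ⟨⟨?_, ?_, ?_⟩, ?_⟩
    · rintro _ ⟨m, rfl⟩
      exact isOpen_Un n m
    · apply Set.eq_univ_of_forall
      intro x
      obtain ⟨i, hi, hi'⟩ := hX.star x.1 x.2 (n + 1)
      exact ⟨_, ⟨i, rfl⟩, Or.inr ⟨i, by omega, le_rfl, hi'⟩⟩
    · rintro ⟨m, hm⟩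
      exact hne n m hm
    · rintro ⟨𝓖, h1, h2, h3⟩
      rcases sUnion_Un h1 h2 with rfl | ⟨m, hm⟩
      · have : (⟨x₀, hx₀⟩ : X) ∈ ⋃₀ (∅ : Set (Set X)) := h3 ▸ Set.mem_univ _
        simp at this
      · exact hne n m (hm.symm.trans h3)
  have hg : ∀ n, ∃ m, (𝓕 n).Nonempty → ⋃₀ 𝓕 n = Un X n m := by
    intro n
    rcases sUnion_Un (h𝓕 n).1 (h𝓕 n).2 with h1 | ⟨m, hm⟩
    · exact ⟨0, fun h2 => absurd h1 h2.ne_empty⟩
    · exact ⟨m, fun _ => hm⟩
  choose g hg using hg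
  have hA : {n | (𝓕 n).Nonempty}.Infinite := by
    refine (hinf ⟨x₀, hx₀⟩).mono fun n hn => ?_
    obtain ⟨V, hV, -⟩ := hn
    exact ⟨V, hV⟩
  obtain ⟨x, hx, y, hy, h1, h2⟩ := hX.twin _ hA g
  have key : ∀ (x y : X) n, n ∈ {n | (𝓕 n).Nonempty} → Late g n x.1 → y.1 n ≠ 1 →
      y ∈ ⋃₀ 𝓕 n ∧ x ∉ ⋃₀ 𝓕 n := by
    intro x y n hn hl hyn
    rw [hg n hn]
    refine ⟨Or.inl hyn, ?_⟩
    rintro (h3 | ⟨i, h3, h4, h5⟩)
    · exact h3 hl.1
    · exact hl.2 i h3 h4 h5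
  rcases hcomp ⟨x, hx⟩ ⟨y, hy⟩ with h3 | h3
  · exact h2 (h3.subset fun n hn => key ⟨y, hy⟩ ⟨x, hx⟩ n hn.1 hn.2.1 hn.2.2)
  · exact h1 (h3.subset fun n hn => key ⟨x, hx⟩ ⟨y, hy⟩ n hn.1 hn.2.1 hn.2.2)

section Transfer

universe u v

variable {X : Type u} {Y : Type v} [TopologicalSpace X] [TopologicalSpace Y]

/-- the family of preimages -/
def pull (e : X → Y) (𝒰 : Set (Set Y)) : Set (Set X) := (fun U => e ⁻¹' U) '' 𝒰

omit [TopologicalSpace X] [TopologicalSpace Y] in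
lemma sUnion_pull (e : X → Y) (𝒰 : Set (Set Y)) : ⋃₀ pull e 𝒰 = e ⁻¹' ⋃₀ 𝒰 := by
  rw [pull, Set.sUnion_image, Set.preimage_sUnion]

lemma pull_pull_symm (e : X ≃ₜ Y) (𝒰 : Set (Set X)) : pull e (pull e.symm 𝒰) = 𝒰 := by
  rw [pull, pull, Set.image_image]
  have : (fun U : Set X => e ⁻¹' (e.symm ⁻¹' U)) = id := by
    funext U
    rw [← Set.preimage_comp]
    simp
  rw [this, Set.image_id]

lemma isOpenCover_pull (e : X ≃ₜ Y) {𝒰 : Set (Set Y)} (h : IsOpenCover 𝒰) :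
    IsOpenCover (pull e 𝒰) := by
  refine ⟨?_, ?_, ?_⟩
  · rintro _ ⟨U, hU, rfl⟩
    exact (h.1 U hU).preimage e.continuous
  · rw [sUnion_pull, h.2.1, Set.preimage_univ]
  · rintro ⟨U, hU, hU'⟩
    refine h.2.2 ?_
    have : U = Set.univ := by
      rw [Set.eq_univ_iff_forall] at hU' ⊢
      intro y
      have := hU' (e.symm y)
      simpa using this
    rwa [this] at hU

lemma hasFiniteSubcover_pull (e : X ≃ₜ Y) {𝒰 : Set (Set Y)} (h : HasFiniteSubcover 𝒰) :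
    HasFiniteSubcover (pull e 𝒰) := by
  obtain ⟨𝓕, h1, h2, h3⟩ := h
  exact ⟨pull e 𝓕, h1.image _, Set.image_mono h2, by rw [sUnion_pull, h3, Set.preimage_univ]⟩

lemma isTauSeq_pull (e : X ≃ₜ Y) {V : ℕ → Set Y} (h : IsTauSeq V) :
    IsTauSeq fun n => e ⁻¹' V n := by
  refine ⟨fun n => (h.1 n).preimage e.continuous, fun n hn => h.2.1 n ?_, fun x => h.2.2.1 (e x),
    fun x y => h.2.2.2 (e x) (e y)⟩
  rw [Set.eq_univ_iff_forall] at hn ⊢
  intro y
  have := hn (e.symm y)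
  simpa using this

theorem ufinTau_of_homeomorph (e : X ≃ₜ Y) (h : UfinTau X) : UfinTau Y := by
  intro 𝒰 h𝒰
  obtain ⟨𝓕, h1, h2⟩ := h (fun n => pull e (𝒰 n)) fun n =>
    ⟨isOpenCover_pull e (h𝒰 n).1, fun hc => (h𝒰 n).2 (by
      have := hasFiniteSubcover_pull e.symm hc
      rwa [show (e : X → Y) = e.symm.symm from rfl, pull_pull_symm] at this)⟩
  refine ⟨fun n => pull e.symm (𝓕 n), fun n => ⟨(h1 n).1.image _, ?_⟩, ?_⟩
  · have := Set.image_mono (f := fun U : Set X => e.symm ⁻¹' U) (h1 n).2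
    change pull e.symm (𝓕 n) ⊆ pull e.symm (pull e (𝒰 n)) at this
    rwa [show (e : X → Y) = e.symm.symm from rfl, pull_pull_symm] at this
  · simp only [sUnion_pull]
    exact isTauSeq_pull e.symm h2

theorem ufinTauDecreasing_of_homeomorph (e : X ≃ₜ Y) (h : UfinTauDecreasing X) :
    UfinTauDecreasing Y := by
  intro 𝒰 h𝒰 hdec
  obtain ⟨𝓕, h1, h2⟩ := h (fun n => pull e (𝒰 n)) (fun n =>
    ⟨isOpenCover_pull e (h𝒰 n).1, fun hc => (h𝒰 n).2 (by
      have := hasFiniteSubcover_pull e.symm hc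
      rwa [show (e : X → Y) = e.symm.symm from rfl, pull_pull_symm] at this)⟩)
    (fun n => Set.image_mono (hdec n))
  refine ⟨fun n => pull e.symm (𝓕 n), fun n => ⟨(h1 n).1.image _, ?_⟩, ?_⟩
  · have := Set.image_mono (f := fun U : Set X => e.symm ⁻¹' U) (h1 n).2
    change pull e.symm (𝓕 n) ⊆ pull e.symm (pull e (𝒰 n)) at this
    rwa [show (e : X → Y) = e.symm.symm from rfl, pull_pull_symm] at this
  · simp only [sUnion_pull]
    exact isTauSeq_pull e.symm h2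

end Transfer

end Pool.Agent.TauGp.CH
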