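import Pool.Agent.TauGp.Decreasing
import Pool.Agent.TauGp.CH.Space

/-!
# The counterexample as a set of reals
-/

set_option autoImplicit false

namespace Pool.Agent.TauGp.CH

open Pool.Agent.TauGp

/-- an embedding of the space of points into the Cantor space -/
def toBool (x : Pt) : ℕ → Bool := fun k => if k % 2 = 0 then x (k / 2) = 1 else x (k / 2) = 2

lemma continuous_toBool : Continuous toBool := by
  refine continuous_pi fun k => ?_
  have h : (fun x : Pt => toBool x k) =
      (fun c : Fin 3 => if k % 2 = 0 then decide (c = 1) else decide (c = 2)) ∘
        fun x : Pt => x (k / 2) := by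
    funext x
    simp only [toBool, Function.comp]
  rw [h]
  exact continuous_of_discreteTopology.comp (continuous_apply _)

lemma injective_toBool : Function.Injective toBool := by
  intro x y h
  funext n
  have h1 := congrFun h (2 * n)
  have h2 := congrFun h (2 * n + 1)
  simp only [toBool] at h1 h2
  rw [if_pos (by omega), if_pos (by omega), Nat.mul_div_cancel_left n (by norm_num)] at h1
  rw [if_neg (by omega), if_neg (by omega), show (2 * n + 1) / 2 = n by omega] at h2
  have h1' : x n = 1 ↔ y n = 1 := by simpa using h1
  have h2' : x n = 2 ↔ y n = 2 := by simpa using h2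
  generalize x n = a at *
  generalize y n = b at *
  revert a b
  decide

/-- an embedding of the space of points into the real line -/
theorem exists_embedding : ∃ f : Pt → ℝ, Topology.IsEmbedding f := by
  refine ⟨fun x => (cantorSetHomeomorphNatToBool.symm (toBool x)).1, ?_⟩
  refine (Continuous.isClosedEmbedding ?_ ?_).isEmbedding
  · exact continuous_subtype_val.comp (cantorSetHomeomorphNatToBool.symm.continuous.comp
      continuous_toBool)
  · exact Subtype.val_injective.comp (cantorSetHomeomorphNatToBool.symm.injective.comp
      injective_toBool)

/-- Under the continuum hypothesis, the two classes of sets of reals differ. -/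
theorem separation (hCH : Cardinal.continuum.{0} = Cardinal.aleph 1) :
    ∃ X : Set ℝ, SfinOmegaTauGp X ∧ ¬ UfinTau X := by
  obtain ⟨X, hX⟩ := exists_good hCH
  obtain ⟨f, hf⟩ := exists_embedding
  refine ⟨f '' X, ?_, fun h => hX.not_ufinTau ?_⟩
  · exact sfin_iff_ufinTauDecreasing.2
      (ufinTauDecreasing_of_homeomorph (hf.homeomorphImage X) hX.ufinTauDecreasing)
  · exact ufinTau_of_homeomorph (hf.homeomorphImage X).symm h


end Pool.Agent.TauGp.CH
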