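import Mathlib

/-!
# Conditions (towers of systems of runs) for the counterexample under the continuum hypothesis

Points are sequences of letters `0, 1, 2` (the letter `2` is called a star).
-/

set_option autoImplicit false

namespace Pool.Agent.TauGp.CH

/-- points -/
abbrev Pt : Type := ℕ → Fin 3

/-- `mix n x y` is `x` below `n` and `y` from `n` on. -/
def mix (n : ℕ) (x y : Pt) : Pt := fun i => if i < n then x i else y i

lemma mix_lt {n i : ℕ} {x y : Pt} (h : i < n) : mix n x y i = x i := if_pos h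

lemma mix_ge {n i : ℕ} {x y : Pt} (h : n ≤ i) : mix n x y i = y i := if_neg (not_lt.2 h)

/-- A condition: an infinite set of levels, two points `w` and `ρ`, a notion of gap run and a notion
of run with stars. -/
structure Cond where
  /-- levels -/
  lev : Set ℕ
  /-- the main point -/
  w : Pt
  /-- the default gap filler -/
  ρ : Pt
  /-- gap runs -/
  G : ℕ → ℕ → Pt → Prop
  /-- runs with stars -/
  W : ℕ → ℕ → Pt → Prop
  lev_inf : lev.Infinite
  G_lev : ∀ {p q x}, G p q x → p ∈ lev ∧ q ∈ lev ∧ p < q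
  W_lev : ∀ {p q x}, W p q x → p ∈ lev ∧ q ∈ lev ∧ p < q
  G_congr : ∀ {p q x y}, G p q x → (∀ i, p ≤ i → i < q → x i = y i) → G p q y
  W_congr : ∀ {p q x y}, W p q x → (∀ i, p ≤ i → i < q → x i = y i) → W p q y
  GG : ∀ {p q r x}, G p q x → G q r x → G p r x
  GW : ∀ {p q r x}, G p q x → W q r x → W p r x
  WG : ∀ {p q r x}, W p q x → G q r x → W p r x
  WW : ∀ {p q r x}, W p q x → W q r x → W p r x
  G_star : ∀ {p q x}, G p q x → ∀ i, p ≤ i → i < q → x i ≠ 2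
  W_star : ∀ {p q x}, W p q x → ∃ i, p ≤ i ∧ i < q ∧ x i = 2
  W_sub : ∀ {p q x}, W p q x → ∀ i, p ≤ i → i < q → x i = 2 → w i = 2
  ρG : ∀ {p q}, p ∈ lev → q ∈ lev → p < q → G p q ρ
  wW : ∀ {p q}, p ∈ lev → q ∈ lev → p < q → W p q w
  cov : ∀ A, ∃ N, ∀ i, N ≤ i → ∀ c : Fin 3, c ≠ 2 →
    ∃ p q x, A ≤ p ∧ p ≤ i ∧ i < q ∧ G p q x ∧ x i = c

/-- `Le C' C`: from some point on each run of `C'` is a run of `C`. -/
def Le (C' C : Cond) : Prop :=
  ∃ N, ∀ p, N ≤ p → ∀ q x, (C'.G p q x → C.G p q x) ∧ (C'.W p q x → C.W p q x)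

lemma Le.refl (C : Cond) : Le C C := ⟨0, fun _ _ _ _ => ⟨id, id⟩⟩

lemma Le.trans {C₁ C₂ C₃ : Cond} (h₁ : Le C₁ C₂) (h₂ : Le C₂ C₃) : Le C₁ C₃ := by
  obtain ⟨N₁, h₁⟩ := h₁
  obtain ⟨N₂, h₂⟩ := h₂
  exact ⟨max N₁ N₂, fun p hp q x =>
    ⟨fun h => (h₂ p (le_of_max_le_right hp) q x).1 ((h₁ p (le_of_max_le_left hp) q x).1 h),
     fun h => (h₂ p (le_of_max_le_right hp) q x).2 ((h₁ p (le_of_max_le_left hp) q x).2 h)⟩⟩

/-- `x` is compatible with `C`: up to a finite part it is a concatenation of runs with stars. -/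
def Comp (x : Pt) (C : Cond) : Prop :=
  ∃ β : ℕ → ℕ, StrictMono β ∧ ∀ s, C.W (β s) (β (s + 1)) x

/-- equality up to finitely many coordinates -/
def EvEq (x y : Pt) : Prop := ∃ n, ∀ i, n ≤ i → x i = y i

lemma EvEq.refl (x : Pt) : EvEq x x := ⟨0, fun _ _ => rfl⟩

lemma EvEq.symm {x y : Pt} (h : EvEq x y) : EvEq y x := by
  obtain ⟨n, hn⟩ := h
  exact ⟨n, fun i hi => (hn i hi).symm⟩

lemma EvEq.trans {x y z : Pt} (h : EvEq x y) (h' : EvEq y z) : EvEq x z := by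
  obtain ⟨n, hn⟩ := h
  obtain ⟨m, hm⟩ := h'
  exact ⟨max n m, fun i hi => (hn i (le_of_max_le_left hi)).trans (hm i (le_of_max_le_right hi))⟩

lemma Comp.congr {x y : Pt} {C : Cond} (h : Comp x C) (hxy : EvEq x y) : Comp y C := by
  obtain ⟨β, hβ, h⟩ := h
  obtain ⟨n, hn⟩ := hxy
  refine ⟨fun s => β (s + n), fun a b hab => hβ (by omega), fun s => ?_⟩
  have h1 := h (s + n)
  change C.W (β (s + n)) (β (s + 1 + n)) y
  rw [show s + 1 + n = s + n + 1 by omega]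
  refine C.W_congr h1 fun i hi _ => hn i ?_
  exact le_trans (le_trans (Nat.le_add_left n s) (hβ.id_le (s + n))) hi

lemma Comp.mono {x : Pt} {C C' : Cond} (h : Comp x C') (hle : Le C' C) : Comp x C := by
  obtain ⟨β, hβ, h⟩ := h
  obtain ⟨N, hN⟩ := hle
  refine ⟨fun s => β (s + N), fun a b hab => hβ (by omega), fun s => ?_⟩
  change C.W (β (s + N)) (β (s + 1 + N)) x
  rw [show s + 1 + N = s + N + 1 by omega]
  exact (hN _ (le_trans (Nat.le_add_left N s) (hβ.id_le (s + N))) _ _).2 (h (s + N))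

lemma Cond.exists_lev (C : Cond) (n : ℕ) : ∃ p ∈ C.lev, n < p :=
  C.lev_inf.exists_gt n

lemma Cond.exists_seq (C : Cond) : ∃ β : ℕ → ℕ, StrictMono β ∧ ∀ s, β s ∈ C.lev := by
  classical
  refine ⟨Nat.nth fun p => p ∈ C.lev, Nat.nth_strictMono C.lev_inf, fun s => ?_⟩
  exact Nat.nth_mem_of_infinite C.lev_inf s

lemma Cond.comp_w (C : Cond) : Comp C.w C := by
  obtain ⟨β, hβ, h⟩ := C.exists_seq
  exact ⟨β, hβ, fun s => C.wW (h s) (h (s + 1)) (hβ (Nat.lt_succ_self s))⟩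

/-- each compatible point has infinitely many stars -/
lemma Comp.star {x : Pt} {C : Cond} (h : Comp x C) (n : ℕ) : ∃ i, n ≤ i ∧ x i = 2 := by
  obtain ⟨β, hβ, h⟩ := h
  obtain ⟨i, hi, -, hx⟩ := C.W_star (h n)
  exact ⟨i, (hβ.id_le n).trans hi, hx⟩

/-- from some point on, the stars of a compatible point are stars of `C.w` -/
lemma Comp.sub {x : Pt} {C : Cond} (h : Comp x C) : ∃ n, ∀ i, n ≤ i → x i = 2 → C.w i = 2 := by
  obtain ⟨β, hβ, h⟩ := h
  have key : ∀ s i, β 0 ≤ i → i < β s → x i = 2 → C.w i = 2 := by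
    intro s
    induction s with
    | zero => intro i h1 h2; omega
    | succ s ih =>
      intro i h1 h2 h3
      by_cases h4 : i < β s
      · exact ih i h1 h4 h3
      · exact C.W_sub (h s) i (not_lt.1 h4) h2 h3
  exact ⟨β 0, fun i hi hx => key (i + 1) i hi (Nat.lt_of_lt_of_le (Nat.lt_succ_self i)
    (hβ.id_le (i + 1))) hx⟩

/-- The largest condition. -/
def Cond.top : Cond where
  lev := Set.univ
  w := fun _ => 2
  ρ := fun _ => 0
  G := fun p q x => p < q ∧ ∀ i, p ≤ i → i < q → x i ≠ 2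
  W := fun p q x => p < q ∧ ∃ i, p ≤ i ∧ i < q ∧ x i = 2
  lev_inf := Set.infinite_univ
  G_lev := fun h => ⟨trivial, trivial, h.1⟩
  W_lev := fun h => ⟨trivial, trivial, h.1⟩
  G_congr := fun h h' => ⟨h.1, fun i hi hi' => by rw [← h' i hi hi']; exact h.2 i hi hi'⟩
  W_congr := fun h h' => by
    obtain ⟨h1, i, hi, hi', hx⟩ := h
    exact ⟨h1, i, hi, hi', by rw [← h' i hi hi']; exact hx⟩
  GG := fun {p q r x} h h' => ⟨h.1.trans h'.1, fun i hi hi' => by
    by_cases h1 : i < q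
    · exact h.2 i hi h1
    · exact h'.2 i (not_lt.1 h1) hi'⟩
  GW := fun {p q r x} h h' => by
    obtain ⟨h1, i, hi, hi', hx⟩ := h'
    exact ⟨h.1.trans h1, i, h.1.le.trans hi, hi', hx⟩
  WG := fun {p q r x} h h' => by
    obtain ⟨h1, i, hi, hi', hx⟩ := h
    exact ⟨h1.trans h'.1, i, hi, hi'.trans h'.1, hx⟩
  WW := fun {p q r x} h h' => by
    obtain ⟨h1, i, hi, hi', hx⟩ := h
    exact ⟨h1.trans h'.1, i, hi, hi'.trans h'.1, hx⟩
  G_star := fun h => h.2
  W_star := fun h => h.2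
  W_sub := fun _ _ _ _ _ => rfl
  ρG := fun _ _ h => ⟨h, fun _ _ _ => (by decide : (0 : Fin 3) ≠ 2)⟩
  wW := fun {p q} _ _ h => ⟨h, p, le_rfl, h, rfl⟩
  cov := fun A => ⟨A, fun i hi c hc => ⟨i, i + 1, fun _ => c, hi, le_rfl, Nat.lt_succ_self i,
    ⟨Nat.lt_succ_self i, fun _ _ _ => hc⟩, rfl⟩⟩

end Pool.Agent.TauGp.CH
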