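import Pool.Agent.TauGp.CH.OneStep

/-!
# The new condition of the one-step lemma, and the behaviour of its compatible points
-/

set_option autoImplicit false

namespace Pool.Agent.TauGp.CH

attribute [local instance] Ultrafilter.mul Ultrafilter.semigroup

namespace Built

variable {S : Setup} (D : Built S)

lemma AgreeOn.mono {p q p' q' : ℕ} {x y : Pt} (h : AgreeOn p q x y) (hp : p ≤ p') (hq : q' ≤ q) :
    AgreeOn p' q' x y := fun i hi hi' => h i (hp.trans hi) (lt_of_lt_of_le hi' hq)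

lemma AgreeOn.symm {p q : ℕ} {x y : Pt} (h : AgreeOn p q x y) : AgreeOn p q y x :=
  fun i hi hi' => (h i hi hi').symm

lemma AgreeOn.trans {p q : ℕ} {x y z : Pt} (h : AgreeOn p q x y) (h' : AgreeOn p q y z) :
    AgreeOn p q x z := fun i hi hi' => (h i hi hi').trans (h' i hi hi')

/-- new gap runs, in terms of the indices -/
def GG' (a b : ℕ) (x : Pt) : Prop :=
  S.C.G (D.n a) (D.n b) x ∧ ∀ y, AgreeOn (D.n a) (D.n b) y x → Rel S D.n D.I a b y

/-- new star runs, in terms of the indices -/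
def WW' (w' : Pt) (a b : ℕ) (x : Pt) : Prop :=
  S.C.W (D.n a) (D.n b) x ∧ (∀ i, D.n a ≤ i → i < D.n b → x i = 2 → w' i = 2) ∧
  ∀ y, AgreeOn (D.n a) (D.n b) y x → Rel S D.n D.I a b y ∧ S.stable ⟨D.n b, y⟩ ∧
    ∀ j < a, S.acc (D.I j) ⟨D.n a, y⟩ → cyl ⟨D.n b, y⟩ ⊆ S.OI (D.I j)

variable {D}

lemma GG'.lt {a b : ℕ} {x : Pt} (h : D.GG' a b x) : a < b :=
  D.nmono.lt_iff_lt.1 (S.C.G_lev h.1).2.2

lemma WW'.lt {w' : Pt} {a b : ℕ} {x : Pt} (h : D.WW' w' a b x) : a < b :=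
  D.nmono.lt_iff_lt.1 (S.C.W_lev h.1).2.2

lemma GG'.trans {a b c : ℕ} {x : Pt} (h : D.GG' a b x) (h' : D.GG' b c x) : D.GG' a c x := by
  have hab := h.lt
  have hbc := h'.lt
  have hab' := D.nmono hab
  have hbc' := D.nmono hbc
  exact ⟨S.C.GG h.1 h'.1, fun y hy => (h.2 y (hy.mono le_rfl hbc'.le)).trans D.nmono hab.le hbc.le
    (h'.2 y (hy.mono hab'.le le_rfl))⟩

lemma GG'.congr {a b : ℕ} {x y : Pt} (h : D.GG' a b x) (hxy : AgreeOn (D.n a) (D.n b) x y) :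
    D.GG' a b y := ⟨S.C.G_congr h.1 hxy, fun y' hy' => h.2 y' (hy'.trans hxy.symm)⟩

lemma WW'.congr {w' : Pt} {a b : ℕ} {x y : Pt} (h : D.WW' w' a b x)
    (hxy : AgreeOn (D.n a) (D.n b) x y) : D.WW' w' a b y :=
  ⟨S.C.W_congr h.1 hxy, fun i hi hi' hx => h.2.1 i hi hi' ((hxy i hi hi').trans hx),
    fun y' hy' => h.2.2 y' (hy'.trans hxy.symm)⟩

lemma WW'.trans {w' : Pt} {a b c : ℕ} {x : Pt} (h : D.WW' w' a b x) (h' : D.WW' w' b c x) :
    D.WW' w' a c x := by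
  have hab := h.lt
  have hbc := h'.lt
  have hab' := D.nmono hab
  have hbc' := D.nmono hbc
  refine ⟨S.C.WW h.1 h'.1, fun i hi hi' hx => ?_, fun y hy => ?_⟩
  · by_cases hib : i < D.n b
    · exact h.2.1 i hi hib hx
    · exact h'.2.1 i (not_lt.1 hib) hi' hx
  · obtain ⟨h1, h2, h3⟩ := h.2.2 y (hy.mono le_rfl hbc'.le)
    obtain ⟨k1, k2, k3⟩ := h'.2.2 y (hy.mono hab'.le le_rfl)
    exact ⟨h1.trans D.nmono hab.le hbc.le k1, k2, fun j hj hacc =>
      (cyl_anti hbc'.le y).trans (h3 j hj hacc)⟩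

lemma GG'.trans_WW' {w' : Pt} {a b c : ℕ} {x : Pt} (h : D.GG' a b x) (h' : D.WW' w' b c x) :
    D.WW' w' a c x := by
  have hab := h.lt
  have hbc := h'.lt
  have hab' := D.nmono hab
  have hbc' := D.nmono hbc
  refine ⟨S.C.GW h.1 h'.1, fun i hi hi' hx => ?_, fun y hy => ?_⟩
  · by_cases hib : i < D.n b
    · exact absurd hx (S.C.G_star h.1 i hi hib)
    · exact h'.2.1 i (not_lt.1 hib) hi' hx
  · have h1 := h.2 y (hy.mono le_rfl hbc'.le)
    obtain ⟨k1, k2, k3⟩ := h'.2.2 y (hy.mono hab'.le le_rfl)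
    exact ⟨h1.trans D.nmono hab.le hbc.le k1, k2, fun j hj hacc =>
      k3 j (hj.trans hab) ((h1.acc j hj).2 hacc)⟩

lemma WW'.trans_GG' {w' : Pt} {a b c : ℕ} {x : Pt} (h : D.WW' w' a b x) (h' : D.GG' b c x) :
    D.WW' w' a c x := by
  have hab := h.lt
  have hbc := h'.lt
  have hab' := D.nmono hab
  have hbc' := D.nmono hbc
  refine ⟨S.C.WG h.1 h'.1, fun i hi hi' hx => ?_, fun y hy => ?_⟩
  · by_cases hib : i < D.n b
    · exact h.2.1 i hi hib hx
    · exact absurd hx (S.C.G_star h'.1 i (not_lt.1 hib) hi')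
  · obtain ⟨h1, h2, h3⟩ := h.2.2 y (hy.mono le_rfl hbc'.le)
    have k1 := h'.2 y (hy.mono hab'.le le_rfl)
    exact ⟨h1.trans D.nmono hab.le hbc.le k1, k1.stable h2, fun j hj hacc =>
      (cyl_anti hbc'.le y).trans (h3 j hj hacc)⟩

variable (D)

lemma GG'_gap (l : ℕ) {x : Pt} (hx : AgreeOn (D.n l) (D.n (l + 1)) x (D.u l).pt) :
    D.GG' l (l + 1) x := by
  obtain ⟨np, Jp, hst⟩ := D.step l
  refine ⟨?_, fun y hy => D.rel_gap l (hy.trans hx)⟩
  have h := hst.uB.1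
  rw [← D.nsucc] at h
  exact S.C.G_congr h hx.symm

lemma GG'_gaps (x : Pt) (hx : ∀ l, AgreeOn (D.n l) (D.n (l + 1)) x (D.u l).pt) (a d : ℕ) :
    D.GG' a (a + 1 + d) x := by
  induction d with
  | zero => exact D.GG'_gap a (hx a)
  | succ d ih => exact ih.trans (D.GG'_gap (a + 1 + d) (hx _))

lemma WW'_star (w' : Pt) (l : ℕ)
    (hw' : AgreeOn (D.n l) (D.n (l + 1)) w' (D.z l * D.u l).pt) :
    D.WW' w' l (l + 1) w' := by
  obtain ⟨np, Jp, hst⟩ := D.step l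
  refine ⟨?_, fun i _ _ h => h, fun y hy => D.rel_star l (hy.trans hw')⟩
  have h := hst.zD.1
  rw [hst.zlen, ← D.nsucc] at h
  exact S.C.W_congr h hw'.symm

lemma WW'_stars (w' : Pt) (hw' : ∀ l, AgreeOn (D.n l) (D.n (l + 1)) w' (D.z l * D.u l).pt)
    (a d : ℕ) : D.WW' w' a (a + 1 + d) w' := by
  induction d with
  | zero => exact D.WW'_star w' a (hw' a)
  | succ d ih => exact ih.trans (D.WW'_star w' (a + 1 + d) (hw' _))

lemma GG'_cover (l i : ℕ) (hi : D.cb (D.n l) (D.J l) ≤ i)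
    (hi' : i < D.cb (D.n (l + 1)) (D.J (l + 1))) (c : Fin 3) (hc : c ≠ 2) :
    ∃ x, D.GG' l (l + 3) x ∧ D.n l ≤ i ∧ i < D.n (l + 3) ∧ x i = c := by
  obtain ⟨v, hv1, hv2, hv3, hv4⟩ := D.cover l i hi hi' c hc
  have hlen : (v * D.u (l + 1)).len = D.n (l + 2) := by
    rw [mul_len, max_eq_right hv2, ← D.nsucc]
  have hlt : D.n (l + 2) < D.n (l + 3) := D.nmono (by omega)
  have hin : i < D.n (l + 2) := by rw [← hlen]; exact lt_of_lt_of_le hv1 (le_max_left _ _)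
  refine ⟨mix (D.n (l + 2)) (v * D.u (l + 1)).pt (D.u (l + 2)).pt, ⟨?_, ?_⟩,
    (D.cble l).trans hi, hin.trans hlt, ?_⟩
  · have h1 := hv4.1
    rw [hlen] at h1
    obtain ⟨np, Jp, hst⟩ := D.step (l + 2)
    have h2 := hst.uB.1
    rw [← D.nsucc] at h2
    exact S.C.GG (S.C.G_congr h1 fun i _ hi => (mix_lt hi).symm)
      (S.C.G_congr h2 fun i hi _ => (mix_ge hi).symm)
  · intro y hy
    refine D.rel_special l hv4 hv2 ?_ ?_
    · intro j hj hj'
      rw [hy j hj (hj'.trans hlt), mix_lt hj']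
    · intro j hj hj'
      rw [hy j ((D.nmono.monotone (by omega)).trans hj) hj', mix_ge hj]
  · rw [mix_lt hin, mul_pt, mix_lt hv1, hv3]

/-- the new condition -/
theorem exists_cond : ∃ C' : Cond, Le C' S.C ∧ (∀ x, Comp x C' → ∃ (w' : Pt) (a : ℕ → ℕ),
    StrictMono a ∧ ∀ s, D.WW' w' (a s) (a (s + 1)) x) := by
  classical
  obtain ⟨ρ', hρ⟩ := exists_glue D.n D.nmono fun l => (D.u l).pt
  obtain ⟨w', hw⟩ := exists_glue D.n D.nmono fun l => (D.z l * D.u l).pt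
  let C' : Cond :=
    { lev := Set.range D.n
      w := w'
      ρ := ρ'
      G := fun p q x => ∃ a b, D.n a = p ∧ D.n b = q ∧ D.GG' a b x
      W := fun p q x => ∃ a b, D.n a = p ∧ D.n b = q ∧ D.WW' w' a b x
      lev_inf := Set.infinite_range_of_injective D.nmono.injective
      G_lev := by
        rintro p q x ⟨a, b, rfl, rfl, h⟩
        exact ⟨⟨a, rfl⟩, ⟨b, rfl⟩, D.nmono h.lt⟩
      W_lev := by
        rintro p q x ⟨a, b, rfl, rfl, h⟩
        exact ⟨⟨a, rfl⟩, ⟨b, rfl⟩, D.nmono h.lt⟩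
      G_congr := by
        rintro p q x y ⟨a, b, rfl, rfl, h⟩ hxy
        exact ⟨a, b, rfl, rfl, h.congr hxy⟩
      W_congr := by
        rintro p q x y ⟨a, b, rfl, rfl, h⟩ hxy
        exact ⟨a, b, rfl, rfl, h.congr hxy⟩
      GG := by
        rintro p q r x ⟨a, b, rfl, rfl, h⟩ ⟨b', c, hb, rfl, h'⟩
        obtain rfl := D.nmono.injective hb
        exact ⟨a, c, rfl, rfl, h.trans h'⟩
      GW := by
        rintro p q r x ⟨a, b, rfl, rfl, h⟩ ⟨b', c, hb, rfl, h'⟩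
        obtain rfl := D.nmono.injective hb
        exact ⟨a, c, rfl, rfl, h.trans_WW' h'⟩
      WG := by
        rintro p q r x ⟨a, b, rfl, rfl, h⟩ ⟨b', c, hb, rfl, h'⟩
        obtain rfl := D.nmono.injective hb
        exact ⟨a, c, rfl, rfl, h.trans_GG' h'⟩
      WW := by
        rintro p q r x ⟨a, b, rfl, rfl, h⟩ ⟨b', c, hb, rfl, h'⟩
        obtain rfl := D.nmono.injective hb
        exact ⟨a, c, rfl, rfl, h.trans h'⟩
      G_star := by
        rintro p q x ⟨a, b, rfl, rfl, h⟩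
        exact S.C.G_star h.1
      W_star := by
        rintro p q x ⟨a, b, rfl, rfl, h⟩
        exact S.C.W_star h.1
      W_sub := by
        rintro p q x ⟨a, b, rfl, rfl, h⟩
        exact h.2.1
      ρG := by
        rintro p q ⟨a, rfl⟩ ⟨b, rfl⟩ h
        have hab := D.nmono.lt_iff_lt.1 h
        obtain ⟨d, rfl⟩ := Nat.exists_eq_add_of_le (show a + 1 ≤ b from hab)
        exact ⟨a, _, rfl, rfl, D.GG'_gaps ρ' (fun l => hρ l) a d⟩
      wW := by
        rintro p q ⟨a, rfl⟩ ⟨b, rfl⟩ h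
        have hab := D.nmono.lt_iff_lt.1 h
        obtain ⟨d, rfl⟩ := Nat.exists_eq_add_of_le (show a + 1 ≤ b from hab)
        exact ⟨a, _, rfl, rfl, D.WW'_stars w' (fun l => hw l) a d⟩
      cov := by
        intro A
        -- the largest `l` with `cb (n l) (J l) ≤ i`
        refine ⟨D.cb (D.n A) (D.J A), fun i hi c hc => ?_⟩
        have hA : A ≤ i := ((D.nmono.id_le A).trans (D.cble A)).trans hi
        let l := Nat.findGreatest (fun l => D.cb (D.n l) (D.J l) ≤ i) i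
        have h1 : A ≤ l := Nat.le_findGreatest hA hi
        have h2 : D.cb (D.n l) (D.J l) ≤ i :=
          Nat.findGreatest_spec (P := fun l => D.cb (D.n l) (D.J l) ≤ i) hA hi
        have h3 : i < D.cb (D.n (l + 1)) (D.J (l + 1)) := by
          by_contra hcon
          have h4 : D.cb (D.n (l + 1)) (D.J (l + 1)) ≤ i := not_lt.1 hcon
          have h5 : l + 1 ≤ i := ((D.nmono.id_le (l + 1)).trans (D.cble (l + 1))).trans h4
          have h6 : l + 1 ≤ l := Nat.le_findGreatest h5 h4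
          omega
        obtain ⟨x, hx1, hx2, hx3, hx4⟩ := D.GG'_cover l i h2 h3 c hc
        exact ⟨D.n l, D.n (l + 3), x, h1.trans (D.nmono.id_le l), hx2, hx3,
          ⟨l, l + 3, rfl, rfl, hx1⟩, hx4⟩ }
  refine ⟨C', ⟨0, fun p _ q x => ⟨?_, ?_⟩⟩, ?_⟩
  · rintro ⟨a, b, rfl, rfl, h⟩
    exact h.1
  · rintro ⟨a, b, rfl, rfl, h⟩
    exact h.1
  · rintro x ⟨β, hβ, h⟩
    have h' : ∀ s, ∃ a b, D.n a = β s ∧ D.n b = β (s + 1) ∧ D.WW' w' a b x := h
    choose a b ha hb hab using h'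
    have hb' : ∀ s, b s = a (s + 1) := fun s => D.nmono.injective ((hb s).trans (ha (s + 1)).symm)
    refine ⟨w', a, strictMono_nat_of_lt_succ fun s => ?_, fun s => ?_⟩
    · rw [← hb']
      exact (hab s).lt
    · rw [← hb']
      exact hab s

/-- union of three consecutive groups -/
def Ghat (l : ℕ) : Set Pt := S.OI (D.I l) ∪ S.OI (D.I (l + 1)) ∪ S.OI (D.I (l + 2))

lemma mem_Ghat {l : ℕ} {x : Pt} : x ∈ D.Ghat l ↔ ∃ j, l ≤ j ∧ j < l + 3 ∧ x ∈ S.OI (D.I j) := by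
  constructor
  · rintro ((h | h) | h)
    · exact ⟨l, le_rfl, by omega, h⟩
    · exact ⟨l + 1, by omega, by omega, h⟩
    · exact ⟨l + 2, by omega, by omega, h⟩
  · rintro ⟨j, h1, h2, h⟩
    obtain rfl | rfl | rfl : j = l ∨ j = l + 1 ∨ j = l + 2 := by omega
    · exact Or.inl (Or.inl h)
    · exact Or.inl (Or.inr h)
    · exact Or.inr h

theorem comp_dichotomy {w' x : Pt} {a : ℕ → ℕ} (ha : StrictMono a)
    (h : ∀ s, D.WW' w' (a s) (a (s + 1)) x) :
    (∃ N, ∀ l, N ≤ l → x ∈ D.Ghat l) ∨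
    (∃ N, ∀ l, N ≤ l → (x ∈ D.Ghat l ↔ ∃ i, D.n l ≤ i ∧ i < D.n (l + 3) ∧ x i = 2)) := by
  -- relations between all the stems
  have hrel1 : ∀ s, Rel S D.n D.I (a s) (a (s + 1)) x := fun s =>
    ((h s).2.2 x fun i _ _ => rfl).1
  have hrel : ∀ d, Rel S D.n D.I (a 1) (a (1 + 1 + d)) x := by
    intro d
    induction d with
    | zero => exact hrel1 1
    | succ d ih =>
      have h1 : a 1 ≤ a (1 + 1 + d) := ha.monotone (by omega)
      have h2 : a (1 + 1 + d) ≤ a (1 + 1 + d + 1) := ha.monotone (by omega)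
      exact ih.trans D.nmono h1 h2 (hrel1 (1 + 1 + d))
  have hstab : S.stable ⟨D.n (a 1), x⟩ := ((h 0).2.2 x fun i _ _ => rfl).2.1
  have hmem : ∀ p, x ∈ cyl ⟨p, x⟩ := fun p i _ => rfl
  by_cases ht : S.type0 ⟨D.n (a 1), x⟩
  · right
    refine ⟨a 1, fun l hl => ?_⟩
    constructor
    · intro hx
      by_contra hno
      push Not at hno
      obtain ⟨j, hj1, hj2, hj3⟩ := D.mem_Ghat.1 hx
      obtain ⟨m, hm⟩ := exists_cyl_subset (S.isOpen_OI (D.I j)) hj3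
      -- choose `d` large
      obtain ⟨d, hd⟩ : ∃ d, m ≤ D.n (a (1 + 1 + d)) ∧ j < a (1 + 1 + d) := by
        refine ⟨m + j + 1, ?_, ?_⟩
        · have h1 : 1 + 1 + (m + j + 1) ≤ a (1 + 1 + (m + j + 1)) := ha.id_le _
          have h2 : a (1 + 1 + (m + j + 1)) ≤ D.n (a (1 + 1 + (m + j + 1))) := D.nmono.id_le _
          omega
        · have h1 : 1 + 1 + (m + j + 1) ≤ a (1 + 1 + (m + j + 1)) := ha.id_le _
          omega
      refine (hrel d).zero hstab ht j (hl.trans hj1) hd.2 ?_ ?_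
      · intro i hi hi'
        exact hno i ((D.nmono.monotone hj1).trans hi)
          (lt_of_lt_of_le hi' (D.nmono.monotone (by omega)))
      · refine Setup.acc_of_cyl fun y hy => hm y fun i hi => ?_
        exact hy i (lt_of_lt_of_le hi hd.1)
    · rintro ⟨i, hi, hi', hx⟩
      rw [D.mem_Ghat]
      -- the block of `i`
      obtain ⟨j, hj1, hj2, hj3, hj4⟩ : ∃ j, l ≤ j ∧ j < l + 3 ∧ D.n j ≤ i ∧ i < D.n (j + 1) := by
        by_cases h1 : i < D.n (l + 1)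
        · exact ⟨l, le_rfl, by omega, hi, h1⟩
        · by_cases h2 : i < D.n (l + 2)
          · exact ⟨l + 1, by omega, by omega, not_lt.1 h1, h2⟩
          · exact ⟨l + 2, by omega, by omega, not_lt.1 h2, hi'⟩
      have h1 : 1 + 1 + j ≤ a (1 + 1 + j) := ha.id_le _
      exact ⟨j, hj1, hj2, (hrel j).star j (hl.trans hj1) (by omega) ⟨i, hj3, hj4, hx⟩ (hmem _)⟩
  · left
    refine ⟨a 1, fun l hl => ?_⟩
    rw [D.mem_Ghat]
    have h1 : 1 + 1 + l ≤ a (1 + 1 + l) := ha.id_le _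
    obtain ⟨j, hj1, hj2, hj3, hj4⟩ := (hrel l).one hstab ht l hl (by omega)
    exact ⟨j, hj1, hj2, ((h (1 + 1 + l)).2.2 x fun i _ _ => rfl).2.2 j hj3 hj4 (hmem _)⟩

end Built

end Pool.Agent.TauGp.CH
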