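import Pool.Agent.TauGp.CH.NewCond

/-!
# The one-step lemma, final form
-/

set_option autoImplicit false

namespace Pool.Agent.TauGp.CH

attribute [local instance] Ultrafilter.mul Ultrafilter.semigroup

lemma finite_mix (n : ℕ) (w : Pt) : (Set.range fun x : Pt => mix n x w).Finite := by
  let f : (Fin n → Fin 3) → Pt := fun g i => if h : i < n then g ⟨i, h⟩ else w i
  refine (Set.finite_range f).subset ?_
  rintro _ ⟨x, rfl⟩
  refine ⟨fun i => x i, ?_⟩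
  funext i
  simp only [f, mix]
  split_ifs <;> rfl

lemma exists_bound {α : Type*} {F : Set α} (hF : F.Finite) {R : α → ℕ → Prop}
    (hR : ∀ q m m', m ≤ m' → R q m → R q m') (h : ∀ q ∈ F, ∃ m, R q m) :
    ∃ m, ∀ q ∈ F, R q m := by
  have h1 : ∀ᶠ m in Filter.atTop, ∀ q ∈ F, R q m := by
    refine (Filter.eventually_all_finite hF).2 fun q hq => ?_
    obtain ⟨m, hm⟩ := h q hq
    filter_upwards [Filter.eventually_ge_atTop m] with m' hm'
    exact hR q m m' hm' hm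
  exact h1.exists

/-- The union of the first sets of the covers with index in `K`. -/
def GU (O : ℕ → ℕ → Set Pt) (f : ℕ → ℕ) (K : Finset ℕ) : Set Pt :=
  {x | ∃ k ∈ K, ∃ i ≤ f k, x ∈ O k i}

/-- The dichotomy for a point. -/
def Dich (O : ℕ → ℕ → Set Pt) (f : ℕ → ℕ) (K : ℕ → Finset ℕ) (a b : ℕ → ℕ) (x : Pt) : Prop :=
  (∃ N, ∀ l, N ≤ l → x ∈ GU O f (K l)) ∨
  (∃ N, ∀ l, N ≤ l → (x ∈ GU O f (K l) ↔ ∃ i, a l ≤ i ∧ i < b l ∧ x i = 2))

/-- A sequence of intervals going to infinity which covers all large numbers. -/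
structure Blocks (a b : ℕ → ℕ) : Prop where
  le : ∀ l, l ≤ a l
  cov : ∀ L, ∃ M, ∀ i, M ≤ i → ∃ l, L ≤ l ∧ a l ≤ i ∧ i < b l

lemma exists_block {n : ℕ → ℕ} (hn : StrictMono n) {L i : ℕ} (hi : n L ≤ i) :
    ∃ l, L ≤ l ∧ n l ≤ i ∧ i < n (l + 1) := by
  classical
  have hL : L ≤ i := (hn.id_le L).trans hi
  refine ⟨Nat.findGreatest (fun l => n l ≤ i) i, Nat.le_findGreatest hL hi, ?_, ?_⟩
  · exact Nat.findGreatest_spec (P := fun l => n l ≤ i) hL hi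
  · by_contra hcon
    have h1 := not_lt.1 hcon
    have h2 : Nat.findGreatest (fun l => n l ≤ i) i + 1 ≤ i := (hn.id_le _).trans h1
    have h3 := Nat.le_findGreatest (P := fun l => n l ≤ i) h2 h1
    omega

theorem one_step (C : Cond) (Q : Set Pt) (hQ : Q.Countable) (hQw : ∀ k s, mix k s C.w ∈ Q)
    (O : ℕ → ℕ → Set Pt) (hO : ∀ k i, IsOpen (O k i)) (hcov : ∀ k, ∀ q ∈ Q, ∃ i, q ∈ O k i) :
    ∃ (C' : Cond) (f : ℕ → ℕ) (K : ℕ → Finset ℕ) (a b : ℕ → ℕ), Le C' C ∧ Blocks a b ∧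
      (∀ l, ∀ k ∈ K l, l ≤ k) ∧ (∀ q ∈ Q, ∃ N, ∀ l, N ≤ l → q ∈ GU O f (K l)) ∧
      ∀ x, Comp x C' → Dich O f K a b x := by
  classical
  obtain ⟨q, rfl⟩ := hQ.exists_eq_range ⟨_, hQw 0 C.w⟩
  -- the function `f`
  have h1 : ∀ k, ∃ m, ∀ x ∈ q '' Set.Iic k ∪ Set.range (fun s => mix k s C.w),
      ∃ i ≤ m, x ∈ O k i := by
    intro k
    refine exists_bound (((Set.finite_Iic k).image q).union (finite_mix k C.w)) ?_ ?_
    · rintro x m m' hm ⟨i, hi, hx⟩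
      exact ⟨i, hi.trans hm, hx⟩
    · rintro x (⟨j, -, rfl⟩ | ⟨s, rfl⟩)
      · obtain ⟨i, hi⟩ := hcov k (q j) ⟨j, rfl⟩
        exact ⟨i, i, le_rfl, hi⟩
      · obtain ⟨i, hi⟩ := hcov k (mix k s C.w) (hQw k s)
        exact ⟨i, i, le_rfl, hi⟩
  choose f hf using h1
  let P : ℕ → Set Pt := fun k => {x | ∃ i ≤ f k, x ∈ O k i}
  have hPopen : ∀ k, IsOpen (P k) := by
    intro k
    have : P k = ⋃ i ∈ Set.Iic (f k), O k i := by
      ext x
      simp [P]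
    rw [this]
    exact isOpen_biUnion fun i _ => hO k i
  -- the function `h`
  have h2 : ∀ k, ∃ m, ∀ x ∈ Set.range (fun s => mix k s C.w),
      ∀ y : Pt, (∀ i, i < m → y i = x i) → y ∈ P k := by
    intro k
    refine exists_bound (finite_mix k C.w) ?_ ?_
    · intro x m m' hm h y hy
      exact h y fun i hi => hy i (lt_of_lt_of_le hi hm)
    · rintro _ ⟨s, rfl⟩
      exact exists_cyl_subset (hPopen k) (hf k _ (Or.inr ⟨s, rfl⟩))
  choose h hh using h2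
  obtain ⟨U, hU, UU, hUcov⟩ := exists_U C
  obtain ⟨V, hV, VV, UV, VU⟩ := exists_V C h U hU UU
  let S : Setup := ⟨C, P, h, U, V, hPopen, fun k y hy => by
    refine hh k _ ⟨y, rfl⟩ y fun i hi => ?_
    by_cases hik : i < k
    · exact (mix_lt hik).symm
    · change y i = mix k y C.w i
      rw [mix_ge (not_lt.1 hik)]
      exact hy i (not_lt.1 hik) hi, hU, UU, hUcov, hV, VV, UV, VU⟩
  obtain ⟨D⟩ := exists_built S
  obtain ⟨C', hle, hC'⟩ := D.exists_cond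
  have hlarge : ∀ l, ∀ k ∈ D.I l, l ≤ k := by
    intro l k hk
    obtain ⟨np, Jp, hst⟩ := D.step l
    exact ((D.nmono.id_le l).trans (D.Mle _)).trans (hst.Ilarge k hk)
  have hGU : ∀ l x, x ∈ GU O f (D.I l ∪ D.I (l + 1) ∪ D.I (l + 2)) ↔ x ∈ D.Ghat l := by
    intro l x
    simp only [GU, Built.Ghat, Setup.OI, Set.mem_ofPred_eq, Set.mem_union, Set.mem_iUnion,
      Finset.mem_union, exists_prop, S, P]
    constructor
    · rintro ⟨k, (hk | hk) | hk, hk'⟩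
      · exact Or.inl (Or.inl ⟨k, hk, hk'⟩)
      · exact Or.inl (Or.inr ⟨k, hk, hk'⟩)
      · exact Or.inr ⟨k, hk, hk'⟩
    · rintro ((⟨k, hk, hk'⟩ | ⟨k, hk, hk'⟩) | ⟨k, hk, hk'⟩)
      · exact ⟨k, Or.inl (Or.inl hk), hk'⟩
      · exact ⟨k, Or.inl (Or.inr hk), hk'⟩
      · exact ⟨k, Or.inr hk, hk'⟩
  refine ⟨C', f, fun l => D.I l ∪ D.I (l + 1) ∪ D.I (l + 2), D.n, fun l => D.n (l + 3), hle,
    ⟨D.nmono.id_le, fun L => ⟨D.n L, fun i hi => ?_⟩⟩, ?_, ?_, ?_⟩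
  · obtain ⟨l, h1, h2, h3⟩ := exists_block D.nmono hi
    exact ⟨l, h1, h2, h3.trans (D.nmono (by omega))⟩
  · intro l k hk
    simp only [Finset.mem_union] at hk
    rcases hk with (hk | hk) | hk
    · exact hlarge l k hk
    · exact (Nat.le_succ l).trans (hlarge _ k hk)
    · exact (Nat.le_add_right l 2).trans (hlarge _ k hk)
  · rintro _ ⟨j, rfl⟩
    refine ⟨j, fun l hl => ?_⟩
    obtain ⟨np, Jp, hst⟩ := D.step l
    obtain ⟨k, hk, -⟩ := hst.Ihit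
    exact ⟨k, by simp [hk], hf k (q j) (Or.inl ⟨j, hl.trans (hlarge l k hk), rfl⟩)⟩
  · intro x hx
    obtain ⟨w', a, ha, haW⟩ := hC' x hx
    simp only [Dich, hGU]
    exact D.comp_dichotomy ha haW

end Pool.Agent.TauGp.CH
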