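import Pool.Agent.TauGp.CH.Step

/-!
# The one-step lemma
-/

set_option autoImplicit false

namespace Pool.Agent.TauGp.CH

attribute [local instance] Ultrafilter.mul Ultrafilter.semigroup

lemma exists_glue (n : ℕ → ℕ) (hn : StrictMono n) (a : ℕ → Pt) :
    ∃ x : Pt, ∀ l i, n l ≤ i → i < n (l + 1) → x i = a l i := by
  classical
  refine ⟨fun i => a (Nat.findGreatest (fun l => n l ≤ i) i) i, fun l i h1 h2 => ?_⟩
  have h3 : Nat.findGreatest (fun l => n l ≤ i) i = l := by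
    have hl : l ≤ i := (hn.id_le l).trans h1
    have h4 : l ≤ Nat.findGreatest (fun l => n l ≤ i) i := Nat.le_findGreatest hl h1
    have h5 : n (Nat.findGreatest (fun l => n l ≤ i) i) ≤ i :=
      Nat.findGreatest_spec (P := fun l => n l ≤ i) hl h1
    have h6 : n (Nat.findGreatest (fun l => n l ≤ i) i) < n (l + 1) := lt_of_le_of_lt h5 h2
    have h7 := hn.lt_iff_lt.1 h6
    omega
  simp only [h3]

lemma exists_cyl_subset {O : Set Pt} (hO : IsOpen O) {x : Pt} (hx : x ∈ O) :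
    ∃ m, ∀ y : Pt, (∀ i, i < m → y i = x i) → y ∈ O := by
  obtain ⟨s, ⟨y, n, rfl⟩, h1, h2⟩ :=
    (PiNat.isTopologicalBasis_cylinders (fun _ : ℕ => Fin 3)).exists_subset_of_mem_open hx hO
  refine ⟨n, fun z hz => h2 ?_⟩
  rw [PiNat.mem_cylinder_iff] at h1 ⊢
  intro i hi
  rw [hz i hi, h1 i hi]

/-- the relation between two stems of a point -/
structure Rel (S : Setup) (n : ℕ → ℕ) (I : ℕ → Finset ℕ) (a b : ℕ) (y : Pt) : Prop where
  acc : ∀ j < a, (S.acc (I j) ⟨n b, y⟩ ↔ S.acc (I j) ⟨n a, y⟩)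
  tau : S.tau ⟨n b, y⟩ ↔ S.tau ⟨n a, y⟩
  stable : S.stable ⟨n a, y⟩ → S.stable ⟨n b, y⟩
  one : S.stable ⟨n a, y⟩ → ¬ S.type0 ⟨n a, y⟩ → ∀ l, a ≤ l → l < b →
    ∃ j, l ≤ j ∧ j < l + 3 ∧ j < b ∧ S.acc (I j) ⟨n b, y⟩
  zero : S.stable ⟨n a, y⟩ → S.type0 ⟨n a, y⟩ → ∀ l, a ≤ l → l < b →
    (∀ i, n l ≤ i → i < n (l + 1) → y i ≠ 2) → ¬ S.acc (I l) ⟨n b, y⟩
  star : ∀ l, a ≤ l → l < b → (∃ i, n l ≤ i ∧ i < n (l + 1) ∧ y i = 2) →
    cyl ⟨n b, y⟩ ⊆ S.OI (I l)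

lemma cyl_anti {p q : ℕ} (h : p ≤ q) (y : Pt) : cyl ⟨q, y⟩ ⊆ cyl ⟨p, y⟩ :=
  fun _ hx i hi => hx i (lt_of_lt_of_le hi h)

lemma Setup.stable.type0_iff {S : Setup} {t : Wd} (h : S.stable t) : S.type0 t ↔ S.tau t :=
  h.1.trans h.2

lemma Rel.type0_iff {S : Setup} {n : ℕ → ℕ} {I : ℕ → Finset ℕ} {a b : ℕ} {y : Pt}
    (h : Rel S n I a b y) (hs : S.stable ⟨n a, y⟩) :
    S.type0 ⟨n b, y⟩ ↔ S.type0 ⟨n a, y⟩ := by
  rw [(h.stable hs).type0_iff, hs.type0_iff, h.tau]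

lemma Rel.trans {S : Setup} {n : ℕ → ℕ} {I : ℕ → Finset ℕ} (hn : StrictMono n) {a b c : ℕ}
    (hab : a ≤ b) (hbc : b ≤ c) {y : Pt} (h : Rel S n I a b y) (h' : Rel S n I b c y) :
    Rel S n I a c y where
  acc := fun j hj => (h'.acc j (lt_of_lt_of_le hj hab)).trans (h.acc j hj)
  tau := h'.tau.trans h.tau
  stable := fun hs => h'.stable (h.stable hs)
  one := fun hs ht l hl hl' => by
    by_cases hlb : l < b
    · obtain ⟨j, h1, h2, h3, h4⟩ := h.one hs ht l hl hlb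
      exact ⟨j, h1, h2, lt_of_lt_of_le h3 hbc, (h'.acc j h3).2 h4⟩
    · exact h'.one (h.stable hs) (fun h0 => ht ((h.type0_iff hs).1 h0)) l (not_lt.1 hlb) hl'
  zero := fun hs ht l hl hl' hst => by
    by_cases hlb : l < b
    · exact fun h0 => h.zero hs ht l hl hlb hst ((h'.acc l hlb).1 h0)
    · exact h'.zero (h.stable hs) ((h.type0_iff hs).2 ht) l (not_lt.1 hlb) hl' hst
  star := fun l hl hl' hst => by
    by_cases hlb : l < b
    · exact (cyl_anti (hn.monotone hbc) y).trans (h.star l hl hlb hst)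
    · exact h'.star l (not_lt.1 hlb) hl' hst

/-- the outcome of the recursive construction -/
structure Built (S : Setup) where
  /-- bound -/
  M : ℕ → ℕ
  /-- coverage bound -/
  cb : ℕ → Finset (Finset ℕ) → ℕ
  /-- levels -/
  n : ℕ → ℕ
  /-- groups so far -/
  J : ℕ → Finset (Finset ℕ)
  /-- star words -/
  z : ℕ → Wd
  /-- gap words -/
  u : ℕ → Wd
  /-- groups -/
  I : ℕ → Finset ℕ
  Mmono : Monotone M
  Mle : ∀ n, n ≤ M n
  MPP : ∀ n x, S.type0 ⟨n, x⟩ → S.PP (M n) ⟨n, x⟩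
  cble : ∀ l, n l ≤ cb (n l) (J l)
  nlev : ∀ l, n l ∈ S.C.lev
  nsucc : ∀ l, n (l + 1) = (u l).len
  nmono : StrictMono n
  IJ : ∀ l, ∀ j < l, I j ∈ J l
  step : ∀ l, ∃ np Jp, S.StepOK M cb np Jp (n l) (J l) (z l) (u l) (I l)
  cover : ∀ l i, cb (n l) (J l) ≤ i → i < cb (n (l + 1)) (J (l + 1)) → ∀ c : Fin 3, c ≠ 2 →
    ∃ v : Wd, i < v.len ∧ v.len ≤ (u (l + 1)).len ∧ v.pt i = c ∧
      v * u (l + 1) ∈ S.Bset M (n l) (J l)

theorem exists_built (S : Setup) : Nonempty (Built S) := by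
  obtain ⟨M, Mmono, Mle, MPP⟩ := S.exists_M
  obtain ⟨cb, hcb⟩ := S.exists_cb M
  obtain ⟨n, J, z, u, I, h1, h2, h3, h4, h5, h6⟩ := S.exists_sequence M cb hcb
  have hstep : ∀ l, ∃ np Jp, S.StepOK M cb np Jp (n l) (J l) (z l) (u l) (I l) := by
    intro l
    cases l with
    | zero => exact h6
    | succ l => exact ⟨_, _, h5 l⟩
  refine ⟨⟨M, cb, n, J, z, u, I, Mmono, Mle, MPP, fun l => (hcb _ (h1 l) _).1, h1, h2, ?_, ?_,
    hstep, fun l => (h5 l).cover⟩⟩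
  · refine strictMono_nat_of_lt_succ fun l => ?_
    obtain ⟨np, Jp, h⟩ := hstep l
    rw [h2]
    exact (S.C.G_lev h.uB.1).2.2
  · intro l
    induction l with
    | zero => intro j hj; omega
    | succ l ih =>
      intro j hj
      rcases Nat.lt_succ_iff_lt_or_eq.1 hj with hj | rfl
      · exact h4 l (ih j hj)
      · exact h3 j

namespace Built

variable {S : Setup} (D : Built S)

/-- agreement on an interval -/
def AgreeOn (p q : ℕ) (x y : Pt) : Prop := ∀ i, p ≤ i → i < q → x i = y i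

/-- consequences of membership in `Bset` -/
lemma of_Bset {a : ℕ} {u : Wd} (hu : u ∈ S.Bset D.M (D.n a) (D.J a)) {y : Pt}
    (hy : AgreeOn (D.n a) u.len y u.pt) :
    (∀ j < a, (S.acc (D.I j) ⟨u.len, y⟩ ↔ S.acc (D.I j) ⟨D.n a, y⟩)) ∧
    (S.tau ⟨u.len, y⟩ ↔ S.tau ⟨D.n a, y⟩) ∧
    (S.stable ⟨D.n a, y⟩ → S.stable ⟨u.len, y⟩) ∧
    (∀ m, S.PP m ⟨D.n a, y⟩ → S.PP m ⟨u.len, y⟩ ∧ ¬ S.Acc m ⟨u.len, y⟩) := by
  obtain ⟨h0, h⟩ := hu
  have hs := sim_mul (S.C.G_lev h0).2.2.le hy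
  obtain ⟨h1, h2, h3, h4, -⟩ := h y
  refine ⟨fun j hj => ?_, ?_, ?_, ?_⟩
  · rw [← Setup.acc_congr hs]
    exact h1 _ (D.IJ a j hj)
  · rwa [← Setup.tau_congr hs]
  · rwa [← Setup.stable_congr hs]
  · intro m hm
    rw [← Setup.PP_congr hs, ← Setup.Acc_congr hs]
    exact h4 m hm

lemma not_acc {m l : ℕ} (h : m ≤ D.n l) {t : Wd} (ht : ¬ S.Acc (D.M m) t) :
    ¬ S.acc (D.I l) t := by
  intro h1
  obtain ⟨np, Jp, hst⟩ := D.step l
  exact ht ⟨D.I l, fun k hk => (D.Mmono h).trans (hst.Ilarge k hk), h1⟩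

/-- basic gap runs -/
lemma rel_gap (l : ℕ) {y : Pt} (hy : AgreeOn (D.n l) (D.n (l + 1)) y (D.u l).pt) :
    Rel S D.n D.I l (l + 1) y := by
  obtain ⟨np, Jp, hst⟩ := D.step l
  have hy' : AgreeOn (D.n l) (D.u l).len y (D.u l).pt := by rwa [← D.nsucc]
  have hs := sim_mul (S.C.G_lev hst.uB.1).2.2.le hy'
  obtain ⟨h1, h2, h3, h4⟩ := D.of_Bset hst.uB hy'
  rw [← D.nsucc] at h2 h3 h4 hs
  refine ⟨?_, h2, h3, ?_, ?_, ?_⟩
  · intro j hj
    rw [D.nsucc]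
    exact h1 j hj
  · intro _ ht j hj hj'
    obtain rfl : j = l := by omega
    refine ⟨j, le_rfl, by omega, by omega, ?_⟩
    rw [← Setup.acc_congr hs]
    exact hst.Iacc y ht
  · intro _ ht j hj hj' _
    obtain rfl : j = l := by omega
    exact D.not_acc le_rfl (h4 _ (D.MPP _ _ ht)).2
  · intro j hj hj' hstar
    exfalso
    obtain rfl : j = l := by omega
    obtain ⟨i, hi, hi', hx⟩ := hstar
    rw [hy i hi hi'] at hx
    exact S.C.G_star hst.uB.1 i hi (by rwa [← D.nsucc]) hx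

/-- basic star runs -/
lemma rel_star (l : ℕ) {y : Pt} (hy : AgreeOn (D.n l) (D.n (l + 1)) y (D.z l * D.u l).pt) :
    Rel S D.n D.I l (l + 1) y ∧ S.stable ⟨D.n (l + 1), y⟩ ∧
      ∀ j < l, S.acc (D.I j) ⟨D.n l, y⟩ → cyl ⟨D.n (l + 1), y⟩ ⊆ S.OI (D.I j) := by
  obtain ⟨np, Jp, hst⟩ := D.step l
  obtain ⟨hW, -, hall⟩ := hst.zD
  have hlen : (D.z l * D.u l).len = D.n (l + 1) := by rw [hst.zlen, D.nsucc]
  have hs := sim_mul (u := D.z l * D.u l) (S.C.W_lev hW).2.2.le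
    (show AgreeOn (D.n l) (D.z l * D.u l).len y (D.z l * D.u l).pt by rwa [hlen])
  rw [hlen] at hs hW
  obtain ⟨h1, h2, h3, h4⟩ := hall y
  rw [Setup.tau_congr hs] at h3
  rw [Setup.stable_congr hs] at h4
  have hcyl : cyl ⟨D.n (l + 1), y⟩ ⊆ S.OI (D.I l) := by
    obtain ⟨k, hk, hk', hk''⟩ := hst.Ihit
    refine Set.Subset.trans ?_ (S.mem_OI hk)
    intro y' hy'
    refine S.hw k y' fun i hi hi' => ?_
    have h5 : i < D.n (l + 1) := by
      rw [D.nsucc]; exact lt_of_lt_of_le hi' hk'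
    have h6 : D.n l ≤ i := ((D.Mle _).trans (hst.Ilarge k hk)).trans hi
    rw [← hk'' i hi hi', ← hy i h6 h5]
    exact hy' i h5
  obtain ⟨i0, hi0, hi0', hx0⟩ := S.C.W_star hW
  refine ⟨⟨?_, h3, fun _ => h4, ?_, ?_, ?_⟩, h4, ?_⟩
  · intro j hj
    rw [← Setup.acc_congr hs]
    exact h1 _ (D.IJ l j hj)
  · intro _ _ j hj hj'
    obtain rfl : j = l := by omega
    exact ⟨j, le_rfl, by omega, by omega, Setup.acc_of_cyl hcyl⟩
  · intro _ _ j hj hj' hns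
    obtain rfl : j = l := by omega
    refine absurd ?_ (hns i0 hi0 hi0')
    rw [hy i0 hi0 hi0']
    exact hx0
  · intro j hj hj' _
    obtain rfl : j = l := by omega
    exact hcyl
  · intro j hj hacc
    rw [← hs.cyl]
    exact h2 _ (D.IJ l j hj) hacc

/-- special gap runs -/
lemma rel_special (l : ℕ) {v : Wd} (hv : v * D.u (l + 1) ∈ S.Bset D.M (D.n l) (D.J l))
    (hvlen : v.len ≤ (D.u (l + 1)).len) {y : Pt}
    (hy : AgreeOn (D.n l) (D.n (l + 2)) y (v * D.u (l + 1)).pt)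
    (hy' : AgreeOn (D.n (l + 2)) (D.n (l + 3)) y (D.u (l + 2)).pt) :
    Rel S D.n D.I l (l + 3) y := by
  have hlen : (v * D.u (l + 1)).len = D.n (l + 2) := by
    rw [mul_len, max_eq_right hvlen, ← D.nsucc]
  obtain ⟨h1, h2, h3, h4⟩ := D.of_Bset hv (y := y) (by rwa [hlen])
  rw [hlen] at h2 h3 h4
  have h1' : ∀ j < l, (S.acc (D.I j) ⟨D.n (l + 2), y⟩ ↔ S.acc (D.I j) ⟨D.n l, y⟩) := by
    intro j hj
    rw [← hlen]
    exact h1 j hj
  have hgap := D.rel_gap (l + 2) hy'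
  obtain ⟨np, Jp, hst⟩ := D.step (l + 2)
  obtain ⟨g1, g2, g3, g4⟩ := D.of_Bset hst.uB (y := y) (by rwa [← D.nsucc])
  rw [← D.nsucc] at g2 g3 g4
  have hns : ∀ i, D.n l ≤ i → i < D.n (l + 3) → y i ≠ 2 := by
    intro i hi hi'
    by_cases hi2 : i < D.n (l + 2)
    · rw [hy i hi hi2]
      exact S.C.G_star hv.1 i hi (by rwa [hlen])
    · rw [hy' i (not_lt.1 hi2) hi']
      exact S.C.G_star hst.uB.1 i (not_lt.1 hi2) (by rwa [← D.nsucc])
  have htype : S.stable ⟨D.n l, y⟩ → (S.type0 ⟨D.n (l + 2), y⟩ ↔ S.type0 ⟨D.n l, y⟩) := by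
    intro hs
    rw [(h3 hs).type0_iff, hs.type0_iff, h2]
  refine ⟨?_, hgap.tau.trans h2, fun hs => hgap.stable (h3 hs), ?_, ?_, ?_⟩
  · intro j hj
    exact (hgap.acc j (by omega)).trans (h1' j hj)
  · intro hs ht j hj hj'
    obtain ⟨j', k1, k2, k3, k4⟩ := hgap.one (h3 hs) (fun h => ht ((htype hs).1 h)) (l + 2) le_rfl
      (by omega)
    exact ⟨j', by omega, by omega, by omega, k4⟩
  · intro hs ht j hj hj' _
    have k1 := D.MPP _ _ ht
    have k2 := (g4 _ (h4 _ k1).1).2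
    exact D.not_acc (D.nmono.monotone hj) k2
  · intro j hj hj' hstar
    exfalso
    obtain ⟨i, hi, hi', hx⟩ := hstar
    exact hns i ((D.nmono.monotone hj).trans hi)
      (lt_of_lt_of_le hi' (D.nmono.monotone (by omega))) hx

end Built

end Pool.Agent.TauGp.CH
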