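import Pool.Agent.TauGp.CH.OSL

/-!
# Lower bounds of countable chains, and twins
-/

set_option autoImplicit false

namespace Pool.Agent.TauGp.CH

/-- from level `N` on, each run of `C'` is a run of `C` -/
def LeFrom (N : ℕ) (C' C : Cond) : Prop :=
  ∀ p, N ≤ p → ∀ q x, (C'.G p q x → C.G p q x) ∧ (C'.W p q x → C.W p q x)

lemma LeFrom.lev {N : ℕ} {C' C : Cond} (h : LeFrom N C' C) {p : ℕ} (hp : N ≤ p)
    (hp' : p ∈ C'.lev) : p ∈ C.lev := by
  obtain ⟨q, hq, hpq⟩ := C'.exists_lev p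
  exact (C.G_lev ((h p hp q _).1 (C'.ρG hp' hq hpq))).1

/-- The regrouping lemma. -/
theorem regroup (C : ℕ → Cond) (N : ℕ → ℕ) (hN : StrictMono N) (v : ℕ → Pt)
    (hle : ∀ j l, j ≤ l → LeFrom (N l) (C l) (C j))
    (hv : ∀ l, (C l).W (N l) (N (l + 1)) (v l)) :
    ∃ D : Cond, (∀ j, LeFrom (N j) D (C j)) ∧ D.lev = Set.range N ∧
      (∀ l i, N l ≤ i → i < N (l + 1) → D.w i = v l i) := by
  classical
  obtain ⟨ρ', hρ⟩ := exists_glue N hN fun l => (C l).ρ
  obtain ⟨w', hw⟩ := exists_glue N hN v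
  have hlev : ∀ j l, j ≤ l → N l ∈ (C j).lev := by
    intro j l hjl
    exact ((C j).W_lev ((hle j l hjl (N l) le_rfl _ _).2 (hv l))).1
  have hlt : ∀ {a b : ℕ}, N a < N b → a < b := fun h => hN.lt_iff_lt.1 h
  -- monotonicity in the condition
  have hG : ∀ {a b : ℕ}, a ≤ b → ∀ {q x}, (C b).G (N b) q x → (C a).G (N b) q x :=
    fun hab _ _ h => (hle _ _ hab _ le_rfl _ _).1 h
  have hW : ∀ {a b : ℕ}, a ≤ b → ∀ {q x}, (C b).W (N b) q x → (C a).W (N b) q x :=
    fun hab _ _ h => (hle _ _ hab _ le_rfl _ _).2 h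
  let D : Cond :=
    { lev := Set.range N
      w := w'
      ρ := ρ'
      G := fun p q x => ∃ a b, N a = p ∧ N b = q ∧ (C a).G (N a) (N b) x
      W := fun p q x => ∃ a b, N a = p ∧ N b = q ∧ (C a).W (N a) (N b) x ∧
        ∀ i, N a ≤ i → i < N b → x i = 2 → w' i = 2
      lev_inf := Set.infinite_range_of_injective hN.injective
      G_lev := by
        rintro p q x ⟨a, b, rfl, rfl, h⟩
        exact ⟨⟨a, rfl⟩, ⟨b, rfl⟩, ((C a).G_lev h).2.2⟩
      W_lev := by
        rintro p q x ⟨a, b, rfl, rfl, h, -⟩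
        exact ⟨⟨a, rfl⟩, ⟨b, rfl⟩, ((C a).W_lev h).2.2⟩
      G_congr := by
        rintro p q x y ⟨a, b, rfl, rfl, h⟩ hxy
        exact ⟨a, b, rfl, rfl, (C a).G_congr h hxy⟩
      W_congr := by
        rintro p q x y ⟨a, b, rfl, rfl, h, h'⟩ hxy
        exact ⟨a, b, rfl, rfl, (C a).W_congr h hxy, fun i hi hi' hx =>
          h' i hi hi' ((hxy i hi hi').trans hx)⟩
      GG := by
        rintro p q r x ⟨a, b, rfl, rfl, h⟩ ⟨b', c, hb, rfl, h'⟩
        obtain rfl := hN.injective hb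
        exact ⟨a, c, rfl, rfl, (C a).GG h (hG (hlt ((C a).G_lev h).2.2).le h')⟩
      GW := by
        rintro p q r x ⟨a, b, rfl, rfl, h⟩ ⟨b', c, hb, rfl, h', h''⟩
        obtain rfl := hN.injective hb
        refine ⟨a, c, rfl, rfl, (C a).GW h (hW (hlt ((C a).G_lev h).2.2).le h'), ?_⟩
        intro i hi hi' hx
        by_cases hib : i < N b'
        · exact absurd hx ((C a).G_star h i hi hib)
        · exact h'' i (not_lt.1 hib) hi' hx
      WG := by
        rintro p q r x ⟨a, b, rfl, rfl, h, h''⟩ ⟨b', c, hb, rfl, h'⟩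
        obtain rfl := hN.injective hb
        refine ⟨a, c, rfl, rfl, (C a).WG h (hG (hlt ((C a).W_lev h).2.2).le h'), ?_⟩
        intro i hi hi' hx
        by_cases hib : i < N b'
        · exact h'' i hi hib hx
        · exact absurd hx ((C b').G_star h' i (not_lt.1 hib) hi')
      WW := by
        rintro p q r x ⟨a, b, rfl, rfl, h, h1⟩ ⟨b', c, hb, rfl, h', h2⟩
        obtain rfl := hN.injective hb
        refine ⟨a, c, rfl, rfl, (C a).WW h (hW (hlt ((C a).W_lev h).2.2).le h'), ?_⟩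
        intro i hi hi' hx
        by_cases hib : i < N b'
        · exact h1 i hi hib hx
        · exact h2 i (not_lt.1 hib) hi' hx
      G_star := by
        rintro p q x ⟨a, b, rfl, rfl, h⟩
        exact (C a).G_star h
      W_star := by
        rintro p q x ⟨a, b, rfl, rfl, h, -⟩
        exact (C a).W_star h
      W_sub := by
        rintro p q x ⟨a, b, rfl, rfl, h, h'⟩
        exact h'
      ρG := by
        rintro p q ⟨a, rfl⟩ ⟨b, rfl⟩ h
        have hab := hlt h
        obtain ⟨d, rfl⟩ := Nat.exists_eq_add_of_le (show a + 1 ≤ b from hab)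
        clear h hab
        have hbase : ∀ l, (C l).G (N l) (N (l + 1)) ρ' := fun l =>
          (C l).G_congr ((C l).ρG (hlev l l le_rfl) (hlev l (l + 1) (Nat.le_succ l))
            (hN (Nat.lt_succ_self l))) fun i hi hi' => (hρ l i hi hi').symm
        refine ⟨a, _, rfl, rfl, ?_⟩
        induction d with
        | zero => exact hbase a
        | succ d ih =>
          exact (C a).GG ih (hG (show a ≤ a + 1 + d by omega) (hbase (a + 1 + d)))
      wW := by
        rintro p q ⟨a, rfl⟩ ⟨b, rfl⟩ h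
        have hab := hlt h
        obtain ⟨d, rfl⟩ := Nat.exists_eq_add_of_le (show a + 1 ≤ b from hab)
        clear h hab
        have hbase : ∀ l, (C l).W (N l) (N (l + 1)) w' := fun l =>
          (C l).W_congr (hv l) fun i hi hi' => (hw l i hi hi').symm
        refine ⟨a, _, rfl, rfl, ?_, fun i _ _ h => h⟩
        induction d with
        | zero => exact hbase a
        | succ d ih =>
          exact (C a).WW ih (hW (show a ≤ a + 1 + d by omega) (hbase (a + 1 + d)))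
      cov := by
        intro A
        obtain ⟨K, hK⟩ := (C A).cov (N A + 1)
        refine ⟨K, fun i hi c hc => ?_⟩
        obtain ⟨p, q, x, h1, h2, h3, h4, h5⟩ := hK i hi c hc
        obtain ⟨hp, hq, hpq⟩ := (C A).G_lev h4
        have h7 : A + q + 1 ≤ N (A + q + 1) := hN.id_le _
        have h6 : q < N (A + q + 1) := by omega
        have hb : N (A + q + 1) ∈ (C A).lev := hlev A _ (by omega)
        refine ⟨N A, N (A + q + 1), mix p (C A).ρ (mix q x (C A).ρ), hN.id_le A, ?_, ?_,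
          ⟨A, _, rfl, rfl, ?_⟩, ?_⟩
        · omega
        · omega
        · refine (C A).GG (q := p) ?_ ((C A).GG (q := q) ?_ ?_)
          · exact (C A).G_congr ((C A).ρG (hlev A A le_rfl) hp (by omega)) fun j _ hj =>
              (mix_lt hj).symm
          · exact (C A).G_congr h4 fun j hj hj' => by
              rw [mix_ge hj, mix_lt hj']
          · exact (C A).G_congr ((C A).ρG hq hb h6) fun j hj hj' => by
              rw [mix_ge (hpq.le.trans hj), mix_ge hj]
        · rw [mix_ge h2, mix_lt h3, h5] }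
  refine ⟨D, fun j p hp q x => ⟨?_, ?_⟩, rfl, hw⟩
  · rintro ⟨a, b, rfl, rfl, h⟩
    exact hG (hN.le_iff_le.1 hp) h
  · rintro ⟨a, b, rfl, rfl, h, -⟩
    exact hW (hN.le_iff_le.1 hp) h

/-- Lower bounds of decreasing sequences. -/
theorem exists_lower_bound (C : ℕ → Cond) (h : ∀ l, Le (C (l + 1)) (C l)) :
    ∃ D : Cond, ∀ l, Le D (C l) := by
  classical
  have hle : ∀ j d, Le (C (j + d)) (C j) := by
    intro j d
    induction d with
    | zero => exact Le.refl _
    | succ d ih => exact (h (j + d)).trans ih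
  have hT : ∀ l, ∃ T, ∀ j ≤ l, LeFrom T (C l) (C j) := by
    intro l
    obtain ⟨T, hT⟩ := exists_bound (Set.finite_Iic l) (R := fun j T => LeFrom T (C l) (C j))
      (fun j m m' hm hR p hp => hR p (hm.trans hp)) (fun j hj => by
        obtain ⟨d, rfl⟩ := Nat.exists_eq_add_of_le (show j ≤ l from hj)
        exact hle j d)
    exact ⟨T, fun j hj => hT j hj⟩
  choose T hT using hT
  have hnext : ∀ l m, ∃ p ∈ (C l).lev, m < p ∧ T l ≤ p := by
    intro l m
    obtain ⟨p, hp, hp'⟩ := (C l).exists_lev (max m (T l))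
    exact ⟨p, hp, lt_of_le_of_lt (le_max_left _ _) hp', (lt_of_le_of_lt (le_max_right _ _) hp').le⟩
  choose nx hnx1 hnx2 hnx3 using hnext
  let N : ℕ → ℕ := fun l => Nat.rec (nx 0 0) (fun l m => nx (l + 1) m) l
  have hNs : ∀ l, N (l + 1) = nx (l + 1) (N l) := fun l => rfl
  have hNlev : ∀ l, N l ∈ (C l).lev := by
    intro l
    cases l with
    | zero => exact hnx1 0 0
    | succ l => rw [hNs]; exact hnx1 _ _
  have hNT : ∀ l, T l ≤ N l := by
    intro l
    cases l with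
    | zero => exact hnx3 0 0
    | succ l => rw [hNs]; exact hnx3 _ _
  have hNmono : StrictMono N := strictMono_nat_of_lt_succ fun l => by
    rw [hNs]; exact hnx2 _ _
  have hle' : ∀ j l, j ≤ l → LeFrom (N l) (C l) (C j) := fun j l hjl p hp =>
    hT l j hjl p ((hNT l).trans hp)
  have hlev : ∀ l, N (l + 1) ∈ (C l).lev := fun l =>
    (hle' l (l + 1) (Nat.le_succ l)).lev le_rfl (hNlev (l + 1))
  obtain ⟨D, hD, -, -⟩ := regroup C N hNmono (fun l => (C l).w) hle' fun l =>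
    (C l).wW (hNlev l) (hlev l) (hNmono (Nat.lt_succ_self l))
  exact ⟨D, fun l => ⟨N l, hD l⟩⟩

/-- `x` is late at `n`: its value is `1`, and it has no star between `n` and `g n` -/
def Late (g : ℕ → ℕ) (n : ℕ) (x : Pt) : Prop := x n = 1 ∧ ∀ i, n < i → i ≤ g n → x i ≠ 2

/-- The twin lemma. -/
theorem exists_twin (C : Cond) (A : Set ℕ) (hA : A.Infinite) (g : ℕ → ℕ) :
    ∃ (D : Cond) (y : Pt), Le D C ∧ Comp y C ∧ (∃ m, ∀ i, m ≤ i → (y i = 2 ↔ D.w i = 2)) ∧
      {n | n ∈ A ∧ Late g n D.w ∧ y n ≠ 1}.Infinite ∧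
      {n | n ∈ A ∧ Late g n y ∧ D.w n ≠ 1}.Infinite := by
  classical
  -- one block
  have hblock : ∀ p : ℕ, ∃ q n : ℕ, ∃ x : Fin 3 → Pt, p ∈ C.lev → (q ∈ C.lev ∧ p < n ∧ n < q ∧
      g n < q ∧ n ∈ A ∧ (∀ c, c ≠ 2 → C.W p q (x c)) ∧ (∀ c, c ≠ 2 → x c n = c) ∧
      (∀ c, c ≠ 2 → ∀ i, p ≤ i → i ≤ g n → x c i ≠ 2) ∧
      (∀ c c', c ≠ 2 → c' ≠ 2 → ∀ i, p ≤ i → i < q → x c i = 2 → x c' i = 2)) := by
    intro p
    by_cases hp : p ∈ C.lev
    swap
    · exact ⟨0, 0, fun _ _ => 0, fun h => absurd h hp⟩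
    obtain ⟨K, hK⟩ := C.cov (p + 1)
    obtain ⟨n, hn, hn'⟩ := hA.exists_gt (max K p)
    have hcover : ∀ c : Fin 3, ∃ p' q' : ℕ, ∃ x : Pt, c ≠ 2 → (p + 1 ≤ p' ∧ p' ≤ n ∧ n < q' ∧
        C.G p' q' x ∧ x n = c) := by
      intro c
      by_cases hc : c ≠ 2
      · obtain ⟨p', q', x, h⟩ := hK n ((le_max_left _ _).trans hn'.le) c hc
        exact ⟨p', q', x, fun _ => h⟩
      · exact ⟨0, 0, fun _ => 0, fun h => absurd h hc⟩
    choose p' q' x hx using hcover
    obtain ⟨r, hr, hr'⟩ := C.exists_lev (n + g n + ∑ c : Fin 3, q' c)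
    obtain ⟨q, hq, hrq⟩ := C.exists_lev r
    have hqc : ∀ c, q' c < r := by
      intro c
      have : q' c ≤ ∑ c : Fin 3, q' c := Finset.single_le_sum (fun i _ => Nat.zero_le _)
        (Finset.mem_univ c)
      omega
    have hpn : p < n := lt_of_le_of_lt (le_max_right _ _) hn'
    -- the gap part
    have hgap : ∀ c, c ≠ 2 → C.G p r (mix (p' c) C.ρ (mix (q' c) (x c) C.ρ)) := by
      intro c hc
      obtain ⟨h1, h2, h3, h4, h5⟩ := hx c hc
      obtain ⟨k1, k2, k3⟩ := C.G_lev h4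
      refine C.GG (q := p' c) ?_ (C.GG (q := q' c) ?_ ?_)
      · exact C.G_congr (C.ρG hp k1 (by omega)) fun j _ hj => (mix_lt hj).symm
      · exact C.G_congr h4 fun j hj hj' => by rw [mix_ge hj, mix_lt hj']
      · exact C.G_congr (C.ρG k2 hr (hqc c)) fun j hj hj' => by
          rw [mix_ge (k3.le.trans hj), mix_ge hj]
    refine ⟨q, n, fun c => mix r (mix (p' c) C.ρ (mix (q' c) (x c) C.ρ)) C.w,
      fun _ => ⟨hq, hpn, by omega, by omega, hn, ?_, ?_, ?_, ?_⟩⟩
    · intro c hc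
      exact C.GW (C.G_congr (hgap c hc) fun j _ hj => (mix_lt hj).symm)
        (C.W_congr (C.wW hr hq hrq) fun j hj _ => (mix_ge hj).symm)
    · intro c hc
      obtain ⟨h1, h2, h3, h4, h5⟩ := hx c hc
      change mix r (mix (p' c) C.ρ (mix (q' c) (x c) C.ρ)) C.w n = c
      rw [mix_lt (by omega), mix_ge h2, mix_lt h3, h5]
    · intro c hc i hi hi'
      change mix r (mix (p' c) C.ρ (mix (q' c) (x c) C.ρ)) C.w i ≠ 2
      rw [mix_lt (by omega)]
      exact C.G_star (hgap c hc) i hi (by omega)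
    · intro c c' hc hc' i hi hi' h2
      change mix r (mix (p' c) C.ρ (mix (q' c) (x c) C.ρ)) C.w i = 2 at h2
      change mix r (mix (p' c') C.ρ (mix (q' c') (x c') C.ρ)) C.w i = 2
      by_cases hir : i < r
      · rw [mix_lt hir] at h2
        exact absurd h2 (C.G_star (hgap c hc) i hi hir)
      · rw [mix_ge (not_lt.1 hir)] at h2 ⊢
        exact h2
  choose nq nn xx hb using hblock
  obtain ⟨p0, hp0, -⟩ := C.exists_lev 0
  let N : ℕ → ℕ := fun l => nq^[l] p0
  have hNs : ∀ l, N (l + 1) = nq (N l) := fun l => Function.iterate_succ_apply' nq l p0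
  have hNlev : ∀ l, N l ∈ C.lev := by
    intro l
    induction l with
    | zero => exact hp0
    | succ l ih => rw [hNs]; exact (hb _ ih).1
  have hB := fun l => hb (N l) (hNlev l)
  have hNmono : StrictMono N := strictMono_nat_of_lt_succ fun l => by
    rw [hNs]; exact (hB l).2.1.trans (hB l).2.2.1
  -- letters
  let cw : ℕ → Fin 3 := fun l => if Even l then 1 else 0
  let cy : ℕ → Fin 3 := fun l => if Even l then 0 else 1
  have hcw : ∀ l, cw l ≠ 2 := by
    intro l; simp only [cw]; split_ifs <;> decide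
  have hcy : ∀ l, cy l ≠ 2 := by
    intro l; simp only [cy]; split_ifs <;> decide
  obtain ⟨D, hD, -, hDw⟩ := regroup (fun _ => C) N hNmono (fun l => xx (N l) (cw l))
    (fun j l _ p _ q x => ⟨id, id⟩) (fun l => by
      rw [hNs]; exact (hB l).2.2.2.2.2.1 _ (hcw l))
  obtain ⟨y, hy⟩ := exists_glue N hNmono fun l => xx (N l) (cy l)
  have hloc : ∀ i, N 0 ≤ i → ∃ l, N l ≤ i ∧ i < N (l + 1) := by
    intro i hi
    refine ⟨Nat.findGreatest (fun l => N l ≤ i) i, ?_, ?_⟩
    · exact Nat.findGreatest_spec (P := fun l => N l ≤ i) (Nat.zero_le i) hi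
    · by_contra hcon
      have h1 := not_lt.1 hcon
      have h2 : Nat.findGreatest (fun l => N l ≤ i) i + 1 ≤ i := (hNmono.id_le _).trans h1
      have h3 := Nat.le_findGreatest (P := fun l => N l ≤ i) h2 h1
      omega
  have hpos : ∀ l, N l ≤ nn (N l) ∧ nn (N l) < N (l + 1) ∧ g (nn (N l)) < N (l + 1) := fun l => by
    rw [hNs]; exact ⟨(hB l).2.1.le, (hB l).2.2.1, (hB l).2.2.2.1⟩
  -- stars agree
  have hstar : ∀ i, N 0 ≤ i → (y i = 2 ↔ D.w i = 2) := by
    intro i hi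
    obtain ⟨l, h1, h2⟩ := hloc i hi
    rw [hDw l i h1 h2, hy l i h1 h2]
    rw [hNs] at h2
    exact ⟨(hB l).2.2.2.2.2.2.2.2 _ _ (hcy l) (hcw l) i h1 h2,
      (hB l).2.2.2.2.2.2.2.2 _ _ (hcw l) (hcy l) i h1 h2⟩
  -- values
  have hDn : ∀ l, D.w (nn (N l)) = cw l := fun l => by
    rw [hDw l _ (hpos l).1 (hpos l).2.1]
    exact (hB l).2.2.2.2.2.2.1 _ (hcw l)
  have hyn : ∀ l, y (nn (N l)) = cy l := fun l => by
    rw [hy l _ (hpos l).1 (hpos l).2.1]
    exact (hB l).2.2.2.2.2.2.1 _ (hcy l)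
  -- no star in `[N l, g (nn (N l))]` of either point
  have hlate : ∀ l, ∀ i, N l ≤ i → i ≤ g (nn (N l)) → D.w i ≠ 2 := by
    intro l i h1 h2
    rw [hDw l i h1 (lt_of_le_of_lt h2 (hpos l).2.2)]
    exact (hB l).2.2.2.2.2.2.2.1 _ (hcw l) i h1 h2
  have hlate' : ∀ l, ∀ i, N l ≤ i → i ≤ g (nn (N l)) → y i ≠ 2 := by
    intro l i h1 h2
    rw [hy l i h1 (lt_of_le_of_lt h2 (hpos l).2.2)]
    exact (hB l).2.2.2.2.2.2.2.1 _ (hcy l) i h1 h2
  have hinj : StrictMono fun l => nn (N l) := strictMono_nat_of_lt_succ fun l =>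
    lt_of_lt_of_le (hpos l).2.1 (hpos (l + 1)).1
  refine ⟨D, y, ⟨N 0, hD 0⟩, ⟨N, hNmono, fun l => ?_⟩, ⟨N 0, hstar⟩, ?_, ?_⟩
  · refine C.W_congr (x := xx (N l) (cy l)) ?_ fun i hi hi' => (hy l i hi hi').symm
    rw [hNs]
    exact (hB l).2.2.2.2.2.1 _ (hcy l)
  · refine Set.infinite_of_injective_forall_mem (f := fun l => nn (N (2 * l)))
      (fun a b hab => ?_) fun l => ⟨(hB _).2.2.2.2.1, ⟨?_, fun i hi hi' => ?_⟩, ?_⟩
    · have := hinj.injective hab
      omega
    · rw [hDn]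
      simp [cw]
    · exact hlate (2 * l) i ((hpos _).1.trans hi.le) hi'
    · rw [hyn]
      simp [cy]
  · refine Set.infinite_of_injective_forall_mem (f := fun l => nn (N (2 * l + 1)))
      (fun a b hab => ?_) fun l => ⟨(hB _).2.2.2.2.1, ⟨?_, fun i hi hi' => ?_⟩, ?_⟩
    · have := hinj.injective hab
      omega
    · rw [hyn]
      simp [cy]
    · exact hlate' (2 * l + 1) i ((hpos _).1.trans hi.le) hi'
    · rw [hDn]
      simp [cw]

end Pool.Agent.TauGp.CH
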