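import Pool.Agent.TauGp.CH.Types

/-!
# The recursive construction in the one-step lemma
-/

set_option autoImplicit false

namespace Pool.Agent.TauGp.CH

attribute [local instance] Ultrafilter.mul Ultrafilter.semigroup

namespace Setup

variable {S : Setup}

lemma ev_len (S : Setup) (m : ℕ) : ∀ᶠ u in (S.U : Filter Wd), m < u.len := by
  obtain ⟨p, hp, hmp⟩ := S.C.exists_lev m
  filter_upwards [S.hU p hp] with u hu
  exact hmp.trans (S.C.G_lev hu).2.2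

lemma exists_cb (S : Setup) (M : ℕ → ℕ) : ∃ cb : ℕ → Finset (Finset ℕ) → ℕ,
    ∀ n ∈ S.C.lev, ∀ J, n ≤ cb n J ∧ ∀ i, cb n J ≤ i → ∀ c : Fin 3, c ≠ 2 →
      ∃ v : Wd, (∀ᶠ u in (S.U : Filter Wd), v * u ∈ S.Bset M n J) ∧ i < v.len ∧ v.pt i = c := by
  have h : ∀ (n : ℕ) (J : Finset (Finset ℕ)), ∃ b : ℕ, n ∈ S.C.lev → n ≤ b ∧
      ∀ i, b ≤ i → ∀ c : Fin 3, c ≠ 2 → ∃ v : Wd, (∀ᶠ u in (S.U : Filter Wd),
        v * u ∈ S.Bset M n J) ∧ i < v.len ∧ v.pt i = c := by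
    intro n J
    by_cases hn : n ∈ S.C.lev
    · have h1 : ∀ᶠ v in (S.U : Filter Wd), v ∈ S.Bset M n J := S.Bset_mem M hn J
      rw [← S.UU, Ultrafilter.eventually_mul] at h1
      obtain ⟨N, hN⟩ := S.hcov {v | ∀ᶠ u in (S.U : Filter Wd), v * u ∈ S.Bset M n J} h1
      refine ⟨max N n, fun _ => ⟨le_max_right _ _, fun i hi c hc => ?_⟩⟩
      obtain ⟨v, hv, hv', hv''⟩ := hN i (le_of_max_le_left hi) c hc
      exact ⟨v, hv, hv', hv''⟩
    · exact ⟨0, fun h => absurd h hn⟩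
  choose cb hcb using h
  exact ⟨cb, fun n hn J => hcb n J hn⟩

/-- one step of the construction -/
structure StepOK (S : Setup) (M : ℕ → ℕ) (cb : ℕ → Finset (Finset ℕ) → ℕ) (np : ℕ)
    (Jp : Finset (Finset ℕ)) (n : ℕ) (J : Finset (Finset ℕ)) (z u : Wd) (I : Finset ℕ) : Prop where
  uB : u ∈ S.Bset M n J
  zD : z * u ∈ S.Dset M n J
  zlen : (z * u).len = u.len
  cover : ∀ i, cb np Jp ≤ i → i < cb n J → ∀ c : Fin 3, c ≠ 2 →
    ∃ v : Wd, i < v.len ∧ v.len ≤ u.len ∧ v.pt i = c ∧ v * u ∈ S.Bset M np Jp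
  Ilarge : ∀ k ∈ I, M n ≤ k
  Ihit : ∃ k ∈ I, S.h k ≤ u.len ∧ ∀ i, k ≤ i → i < S.h k → (z * u).pt i = S.C.w i
  Iacc : ∀ x, ¬ S.type0 ⟨n, x⟩ → S.acc I (⟨n, x⟩ * u)

theorem step_exists (S : Setup) (M : ℕ → ℕ) (cb : ℕ → Finset (Finset ℕ) → ℕ)
    (hcb : ∀ n ∈ S.C.lev, ∀ J, n ≤ cb n J ∧ ∀ i, cb n J ≤ i → ∀ c : Fin 3, c ≠ 2 →
      ∃ v : Wd, (∀ᶠ u in (S.U : Filter Wd), v * u ∈ S.Bset M n J) ∧ i < v.len ∧ v.pt i = c)
    (np : ℕ) (Jp : Finset (Finset ℕ)) (n : ℕ) (J : Finset (Finset ℕ)) (hnp : np ∈ S.C.lev)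
    (hn : n ∈ S.C.lev) : ∃ z u I, S.StepOK M cb np Jp n J z u I := by
  classical
  -- the special words
  have h1 : ∀ᶠ u in (S.U : Filter Wd), ∀ i ∈ Finset.range (cb n J), cb np Jp ≤ i →
      ∀ c : Fin 3, c ≠ 2 →
      ∃ v : Wd, i < v.len ∧ v.len ≤ u.len ∧ v.pt i = c ∧ v * u ∈ S.Bset M np Jp := by
    rw [Filter.eventually_all_finset]
    intro i _
    by_cases hi : cb np Jp ≤ i
    · have : ∀ᶠ u in (S.U : Filter Wd), ∀ c : Fin 3, c ≠ 2 →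
          ∃ v : Wd, i < v.len ∧ v.len ≤ u.len ∧ v.pt i = c ∧ v * u ∈ S.Bset M np Jp := by
        rw [Filter.eventually_all]
        intro c
        by_cases hc : c ≠ 2
        · obtain ⟨v, hv, hv1, hv2⟩ := (hcb np hnp Jp).2 i hi c hc
          filter_upwards [hv, S.ev_len v.len] with u hu hu' _
          exact ⟨v, hv1, hu'.le, hv2, hu⟩
        · exact Filter.Eventually.of_forall fun u h => absurd h hc
      filter_upwards [this] with u hu _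
      exact hu
    · exact Filter.Eventually.of_forall fun u h => absurd h hi
  -- the word `z`
  have h2 : ∀ᶠ v in (S.V : Filter Wd), v ∈ S.Dset M n J := S.Dset_mem M hn J
  rw [← S.VU, Ultrafilter.eventually_mul] at h2
  obtain ⟨z, hz⟩ := h2.exists
  have h3 : ∀ᶠ v in (S.U : Filter Wd), v ∈ S.Bset M n J := S.Bset_mem M hn J
  obtain ⟨u, hu1, hu2, hu3, hu4⟩ := (h1.and (hz.and (h3.and (S.ev_len z.len)))).exists
  have hlen : (z * u).len = u.len := max_eq_right hu4.le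
  obtain ⟨k, hk, hk', hk''⟩ := hu2.2.1
  -- the group
  have h4 : ∀ x : Pt, ∃ I : Finset ℕ, (∀ k ∈ I, M n ≤ k) ∧
      (¬ S.type0 ⟨n, x⟩ → S.acc I (⟨n, x⟩ * u)) := by
    intro x
    by_cases hx : S.type0 ⟨n, x⟩
    · exact ⟨∅, fun k hk => absurd hk (by simp), fun h => absurd hx h⟩
    · obtain ⟨I, hI, hI'⟩ := (hu3.2 x).2.2.2.2 hx
      exact ⟨I, hI, fun _ => hI'⟩
  choose g hg hg' using h4
  refine ⟨z, u, insert k ((finite_trunc n).toFinset.biUnion g), ?_⟩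
  refine ⟨hu3, hu2, hlen, ?_, ?_, ?_, ?_⟩
  · intro i hi hi' c hc
    exact hu1 i (Finset.mem_range.2 hi') hi c hc
  · intro j hj
    rw [Finset.mem_insert, Finset.mem_biUnion] at hj
    rcases hj with rfl | ⟨x, -, hx⟩
    · exact hk
    · exact hg x j hx
  · exact ⟨k, Finset.mem_insert_self _ _, hlen ▸ hk', hk''⟩
  · intro x hx
    have hs := sim_trunc n x
    rw [type0_congr hs] at hx
    have h5 := hg' _ hx
    rw [hs.mul]
    refine acc_mono ?_ h5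
    refine (Finset.subset_biUnion_of_mem g ?_).trans (Finset.subset_insert _ _)
    rw [Set.Finite.mem_toFinset]
    exact ⟨x, rfl⟩

/-- The sequences of the construction -/
theorem exists_sequence (S : Setup) (M : ℕ → ℕ) (cb : ℕ → Finset (Finset ℕ) → ℕ)
    (hcb : ∀ n ∈ S.C.lev, ∀ J, n ≤ cb n J ∧ ∀ i, cb n J ≤ i → ∀ c : Fin 3, c ≠ 2 →
      ∃ v : Wd, (∀ᶠ u in (S.U : Filter Wd), v * u ∈ S.Bset M n J) ∧ i < v.len ∧ v.pt i = c) :
    ∃ (n : ℕ → ℕ) (J : ℕ → Finset (Finset ℕ)) (z u : ℕ → Wd) (I : ℕ → Finset ℕ),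
      (∀ l, n l ∈ S.C.lev) ∧ (∀ l, n (l + 1) = (u l).len) ∧ (∀ l, I l ∈ J (l + 1)) ∧
      (∀ l, J l ⊆ J (l + 1)) ∧
      (∀ l, S.StepOK M cb (n l) (J l) (n (l + 1)) (J (l + 1)) (z (l + 1)) (u (l + 1))
        (I (l + 1))) ∧
      (∃ np Jp, S.StepOK M cb np Jp (n 0) (J 0) (z 0) (u 0) (I 0)) := by
  classical
  let St : Type := {s : (ℕ × Finset (Finset ℕ)) × (ℕ × Finset (Finset ℕ)) //
    s.1.1 ∈ S.C.lev ∧ s.2.1 ∈ S.C.lev}
  have hex : ∀ s : St, ∃ d : Wd × Wd × Finset ℕ,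
      S.StepOK M cb s.1.1.1 s.1.1.2 s.1.2.1 s.1.2.2 d.1 d.2.1 d.2.2 := by
    intro s
    obtain ⟨z, u, I, h⟩ := S.step_exists M cb hcb s.1.1.1 s.1.1.2 s.1.2.1 s.1.2.2 s.2.1 s.2.2
    exact ⟨(z, u, I), h⟩
  choose d hd using hex
  let F : St → St := fun s => ⟨(s.1.2, ((d s).2.1.len, insert (d s).2.2 s.1.2.2)),
    s.2.2, (S.C.G_lev (hd s).uB.1).2.1⟩
  obtain ⟨p, hp, -⟩ := S.C.exists_lev 0
  let s0 : St := ⟨((p, ∅), (p, ∅)), hp, hp⟩
  let q : ℕ → St := fun l => F^[l] s0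
  have hq : ∀ l, q (l + 1) = F (q l) := fun l => Function.iterate_succ_apply' F l s0
  refine ⟨fun l => (q l).1.2.1, fun l => (q l).1.2.2, fun l => (d (q l)).1, fun l => (d (q l)).2.1,
    fun l => (d (q l)).2.2, fun l => (q l).2.2, fun l => ?_, fun l => ?_, fun l => ?_,
    fun l => ?_, ?_⟩
  · change (q (l + 1)).1.2.1 = _
    rw [hq]
  · change _ ∈ (q (l + 1)).1.2.2
    rw [hq]
    exact Finset.mem_insert_self _ _
  · change _ ⊆ (q (l + 1)).1.2.2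
    rw [hq]
    exact Finset.subset_insert _ _
  · have h1 := hd (q (l + 1))
    have h2 : (q (l + 1)).1.1 = (q l).1.2 := by rw [hq]
    rw [h2] at h1
    exact h1
  · exact ⟨_, _, hd (q 0)⟩

end Setup

end Pool.Agent.TauGp.CH
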