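import Pool.Agent.TauGp.CH.Ultra

/-!
# Types of stems
-/

set_option autoImplicit false

namespace Pool.Agent.TauGp.CH

attribute [local instance] Ultrafilter.mul Ultrafilter.semigroup

/-- the data used in the one-step lemma -/
structure Setup where
  /-- the condition -/
  C : Cond
  /-- the open sets -/
  P : ℕ → Set Pt
  /-- lengths of the pieces of `w` -/
  h : ℕ → ℕ
  /-- gap ultrafilter -/
  U : Ultrafilter Wd
  /-- star ultrafilter -/
  V : Ultrafilter Wd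
  hP : ∀ k, IsOpen (P k)
  hw : ∀ k y, (∀ i, k ≤ i → i < h k → y i = C.w i) → y ∈ P k
  hU : GOK C U
  UU : U * U = U
  hcov : ∀ B ∈ U, ∃ N, ∀ i, N ≤ i → ∀ c : Fin 3, c ≠ 2 → ∃ v ∈ B, i < v.len ∧ v.pt i = c
  hV : WOK C h V
  VV : V * V = V
  UV : U * V = V
  VU : V * U = V

/-- Two words with the same letters. -/
def Sim (t t' : Wd) : Prop := t.len = t'.len ∧ ∀ i, i < t.len → t.pt i = t'.pt i

lemma Sim.mul {t t' : Wd} (h : Sim t t') (u : Wd) : t * u = t' * u := by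
  obtain ⟨n, x⟩ := t
  obtain ⟨m, y⟩ := t'
  obtain ⟨h1, h2⟩ := h
  simp only at h1 h2
  subst h1
  exact mul_congr_left h2 u

lemma Sim.symm {t t' : Wd} (h : Sim t t') : Sim t' t :=
  ⟨h.1.symm, fun i hi => (h.2 i (h.1 ▸ hi)).symm⟩

lemma Sim.cyl {t t' : Wd} (h : Sim t t') : cyl t = cyl t' := by
  ext x
  constructor
  · intro hx i hi
    rw [hx i (h.1 ▸ hi), h.2 i (h.1 ▸ hi)]
  · intro hx i hi
    rw [hx i (h.1 ▸ hi), h.2 i hi]

lemma sim_trunc (n : ℕ) (x : Pt) : Sim ⟨n, x⟩ ⟨n, mix n x (fun _ => 0)⟩ :=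
  ⟨rfl, fun i hi => (mix_lt (n := n) (i := i) (x := x) (y := fun _ => 0) hi).symm⟩

lemma sim_mul {n : ℕ} {y : Pt} {u : Wd} (hn : n ≤ u.len)
    (hy : ∀ i, n ≤ i → i < u.len → y i = u.pt i) : Sim (⟨n, y⟩ * u) ⟨u.len, y⟩ := by
  refine ⟨max_eq_right hn, fun i hi => ?_⟩
  have hi' : i < u.len := lt_of_lt_of_eq hi (max_eq_right hn)
  rw [mul_pt]
  by_cases h1 : i < n
  · rw [mix_lt h1]
  · rw [mix_ge (not_lt.1 h1)]
    exact (hy i (not_lt.1 h1) hi').symm

lemma ev_iff {A B D : Ultrafilter Wd} (h : A * B = D) (Q : Wd → Prop) (t : Wd) :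
    ∀ᶠ a in (A : Filter Wd), ((∀ᶠ z in (B : Filter Wd), Q (t * a * z)) ↔
      ∀ᶠ z in (D : Filter Wd), Q (t * z)) := by
  have key : (∀ᶠ z in (D : Filter Wd), Q (t * z)) ↔
      ∀ᶠ a in (A : Filter Wd), ∀ᶠ z in (B : Filter Wd), Q (t * a * z) := by
    rw [← h, Ultrafilter.eventually_mul]
    simp only [mul_assoc]
  by_cases h1 : ∀ᶠ z in (D : Filter Wd), Q (t * z)
  · filter_upwards [key.1 h1] with a ha
    exact ⟨fun _ => h1, fun _ => ha⟩
  · have h2 : ¬ ∀ᶠ a in (A : Filter Wd), ∀ᶠ z in (B : Filter Wd), Q (t * a * z) :=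
      fun h => h1 (key.2 h)
    rw [← Ultrafilter.eventually_not] at h2
    filter_upwards [h2] with a ha
    exact ⟨fun h => absurd h ha, fun h => absurd h h1⟩

lemma ev_iff' (A : Ultrafilter Wd) (Q : Wd → Prop) (t : Wd) :
    ∀ᶠ a in (A : Filter Wd), (Q (t * a) ↔ ∀ᶠ z in (A : Filter Wd), Q (t * z)) := by
  by_cases h1 : ∀ᶠ z in (A : Filter Wd), Q (t * z)
  · filter_upwards [h1] with a ha
    exact ⟨fun _ => h1, fun _ => ha⟩
  · have h2 := h1
    rw [← Ultrafilter.eventually_not] at h2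
    filter_upwards [h2] with a ha
    exact ⟨fun h => absurd h ha, fun h => absurd h h1⟩

namespace Setup

variable (S : Setup)

/-- union of the open sets with index in `I` -/
def OI (I : Finset ℕ) : Set Pt := ⋃ k ∈ I, S.P k

lemma isOpen_OI (I : Finset ℕ) : IsOpen (S.OI I) := isOpen_biUnion fun k _ => S.hP k

lemma OI_mono {I I' : Finset ℕ} (h : I ⊆ I') : S.OI I ⊆ S.OI I' :=
  Set.biUnion_subset_biUnion_left h

lemma mem_OI {I : Finset ℕ} {k : ℕ} (hk : k ∈ I) : S.P k ⊆ S.OI I :=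
  Set.subset_biUnion_of_mem (u := fun k => S.P k) (show k ∈ (I : Set ℕ) from hk)

/-- acceptance -/
def acc (I : Finset ℕ) (t : Wd) : Prop := ∀ᶠ z in (S.V : Filter Wd), cyl (t * z) ⊆ S.OI I

/-- acceptance by a group with large indices -/
def Acc (m : ℕ) (t : Wd) : Prop := ∃ I : Finset ℕ, (∀ k ∈ I, m ≤ k) ∧ S.acc I t

/-- rejection -/
def PP (m : ℕ) (t : Wd) : Prop := ∀ᶠ u in (S.U : Filter Wd), ¬ S.Acc m (t * u)

/-- type zero -/
def type0 (t : Wd) : Prop := ∃ m, S.PP m t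

/-- type after a gap -/
def sig (t : Wd) : Prop := ∀ᶠ u in (S.U : Filter Wd), S.type0 (t * u)

/-- type after a star word -/
def tau (t : Wd) : Prop := ∀ᶠ u in (S.V : Filter Wd), S.type0 (t * u)

/-- stable stems -/
def stable (t : Wd) : Prop := (S.type0 t ↔ S.sig t) ∧ (S.sig t ↔ S.tau t)

variable {S}

lemma acc_congr {I : Finset ℕ} {t t' : Wd} (h : Sim t t') : S.acc I t ↔ S.acc I t' := by
  simp only [acc, h.mul]

lemma Acc_congr {m : ℕ} {t t' : Wd} (h : Sim t t') : S.Acc m t ↔ S.Acc m t' := by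
  simp only [Acc, acc_congr h]

lemma PP_congr {m : ℕ} {t t' : Wd} (h : Sim t t') : S.PP m t ↔ S.PP m t' := by
  simp only [PP, h.mul]

lemma type0_congr {t t' : Wd} (h : Sim t t') : S.type0 t ↔ S.type0 t' := by
  simp only [type0, PP_congr h]

lemma sig_congr {t t' : Wd} (h : Sim t t') : S.sig t ↔ S.sig t' := by
  simp only [sig, h.mul]

lemma tau_congr {t t' : Wd} (h : Sim t t') : S.tau t ↔ S.tau t' := by
  simp only [tau, h.mul]

lemma stable_congr {t t' : Wd} (h : Sim t t') : S.stable t ↔ S.stable t' := by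
  simp only [stable, type0_congr h, sig_congr h, tau_congr h]

lemma acc_mono {I I' : Finset ℕ} (h : I ⊆ I') {t : Wd} (ht : S.acc I t) : S.acc I' t := by
  unfold acc at ht ⊢
  filter_upwards [ht] with z hz
  exact hz.trans (S.OI_mono h)

lemma acc_of_cyl {I : Finset ℕ} {t : Wd} (ht : cyl t ⊆ S.OI I) : S.acc I t :=
  Filter.Eventually.of_forall fun z => (cyl_mul t z).trans ht

lemma Acc_anti {m m' : ℕ} (h : m ≤ m') {t : Wd} (ht : S.Acc m' t) : S.Acc m t := by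
  obtain ⟨I, hI, hI'⟩ := ht
  exact ⟨I, fun k hk => h.trans (hI k hk), hI'⟩

lemma PP_mono {m m' : ℕ} (h : m ≤ m') {t : Wd} (ht : S.PP m t) : S.PP m' t := by
  unfold PP at ht ⊢
  filter_upwards [ht] with u hu
  exact fun h' => hu (Acc_anti h h')

lemma ev_acc_U (I : Finset ℕ) (t : Wd) :
    ∀ᶠ u in (S.U : Filter Wd), (S.acc I (t * u) ↔ S.acc I t) :=
  ev_iff S.UV (fun s => cyl s ⊆ S.OI I) t

lemma ev_acc_V (I : Finset ℕ) (t : Wd) :
    ∀ᶠ u in (S.V : Filter Wd), (S.acc I (t * u) ↔ S.acc I t) :=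
  ev_iff S.VV (fun s => cyl s ⊆ S.OI I) t

lemma ev_tau_U (t : Wd) : ∀ᶠ u in (S.U : Filter Wd), (S.tau (t * u) ↔ S.tau t) :=
  ev_iff S.UV (fun s => S.type0 s) t

lemma ev_tau_V (t : Wd) : ∀ᶠ u in (S.V : Filter Wd), (S.tau (t * u) ↔ S.tau t) :=
  ev_iff S.VV (fun s => S.type0 s) t

lemma ev_sig_U (t : Wd) : ∀ᶠ u in (S.U : Filter Wd), (S.sig (t * u) ↔ S.sig t) :=
  ev_iff S.UU (fun s => S.type0 s) t

lemma ev_sig_V (t : Wd) : ∀ᶠ u in (S.V : Filter Wd), (S.sig (t * u) ↔ S.tau t) :=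
  ev_iff S.VU (fun s => S.type0 s) t

lemma ev_type0_U (t : Wd) : ∀ᶠ u in (S.U : Filter Wd), (S.type0 (t * u) ↔ S.sig t) :=
  ev_iff' S.U (fun s => S.type0 s) t

lemma ev_type0_V (t : Wd) : ∀ᶠ u in (S.V : Filter Wd), (S.type0 (t * u) ↔ S.tau t) :=
  ev_iff' S.V (fun s => S.type0 s) t

lemma ev_PP_U (m : ℕ) (t : Wd) : ∀ᶠ u in (S.U : Filter Wd), (S.PP m (t * u) ↔ S.PP m t) :=
  ev_iff S.UU (fun s => ¬ S.Acc m s) t

lemma ev_stable_U (t : Wd) :
    ∀ᶠ u in (S.U : Filter Wd), (S.stable t → S.stable (t * u)) := by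
  filter_upwards [ev_tau_U t, ev_sig_U t, ev_type0_U t] with u h1 h2 h3 h4
  unfold stable at *
  rw [h1, h2, h3]
  exact ⟨Iff.rfl, h4.2⟩

lemma ev_stable_V (t : Wd) : ∀ᶠ u in (S.V : Filter Wd), S.stable (t * u) := by
  filter_upwards [ev_tau_V t, ev_sig_V t, ev_type0_V t] with u h1 h2 h3
  unfold stable
  rw [h1, h2, h3]
  exact ⟨Iff.rfl, Iff.rfl⟩

lemma ev_PPall (t : Wd) :
    ∀ᶠ u in (S.U : Filter Wd), ∀ m, S.PP m t → S.PP m (t * u) ∧ ¬ S.Acc m (t * u) := by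
  classical
  by_cases h : ∃ m, S.PP m t
  · have h0 := Nat.find_spec h
    have h0' := h0
    unfold PP at h0'
    filter_upwards [ev_PP_U (Nat.find h) t, h0'] with u hu hu' m hm
    have hle : Nat.find h ≤ m := Nat.find_min' h hm
    exact ⟨PP_mono hle (hu.2 h0), fun h' => hu' (Acc_anti hle h')⟩
  · push Not at h
    exact Filter.Eventually.of_forall fun u m hm => absurd hm (h m)

lemma ev_Acc (m : ℕ) (t : Wd) :
    ∀ᶠ u in (S.U : Filter Wd), (¬ S.type0 t → S.Acc m (t * u)) := by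
  by_cases h : S.type0 t
  · exact Filter.Eventually.of_forall fun u h' => absurd h h'
  · have h1 : ¬ S.PP m t := fun h' => h ⟨m, h'⟩
    unfold PP at h1
    rw [← Ultrafilter.eventually_not] at h1
    filter_upwards [h1] with u hu _
    exact not_not.1 hu

/-- the typical gap words -/
def Bset (S : Setup) (M : ℕ → ℕ) (n : ℕ) (J : Finset (Finset ℕ)) : Set Wd :=
  {u | S.C.G n u.len u.pt ∧ ∀ x : Pt,
    (∀ I ∈ J, (S.acc I (⟨n, x⟩ * u) ↔ S.acc I ⟨n, x⟩)) ∧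
    (S.tau (⟨n, x⟩ * u) ↔ S.tau ⟨n, x⟩) ∧
    (S.stable ⟨n, x⟩ → S.stable (⟨n, x⟩ * u)) ∧
    (∀ m, S.PP m ⟨n, x⟩ → S.PP m (⟨n, x⟩ * u) ∧ ¬ S.Acc m (⟨n, x⟩ * u)) ∧
    (¬ S.type0 ⟨n, x⟩ → S.Acc (M n) (⟨n, x⟩ * u))}

/-- the typical words with stars -/
def Dset (S : Setup) (M : ℕ → ℕ) (n : ℕ) (J : Finset (Finset ℕ)) : Set Wd :=
  {u | S.C.W n u.len u.pt ∧ Hit S.C S.h (M n) u ∧ ∀ x : Pt,
    (∀ I ∈ J, (S.acc I (⟨n, x⟩ * u) ↔ S.acc I ⟨n, x⟩)) ∧
    (∀ I ∈ J, S.acc I ⟨n, x⟩ → cyl (⟨n, x⟩ * u) ⊆ S.OI I) ∧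
    (S.tau (⟨n, x⟩ * u) ↔ S.tau ⟨n, x⟩) ∧
    S.stable (⟨n, x⟩ * u)}

lemma Bset_mem (M : ℕ → ℕ) {n : ℕ} (hn : n ∈ S.C.lev) (J : Finset (Finset ℕ)) :
    S.Bset M n J ∈ S.U := by
  have h1 := ev_all_stems (φ := fun t u =>
    (∀ I ∈ J, (S.acc I (t * u) ↔ S.acc I t)) ∧
    (S.tau (t * u) ↔ S.tau t) ∧
    (S.stable t → S.stable (t * u)) ∧
    (∀ m, S.PP m t → S.PP m (t * u) ∧ ¬ S.Acc m (t * u)) ∧
    (¬ S.type0 t → S.Acc (M n) (t * u))) (l := (S.U : Filter Wd))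
    (fun n x u h => by
      have hs := sim_trunc n x
      simp only [← hs.mul, ← acc_congr hs, ← tau_congr hs, ← stable_congr hs, ← PP_congr hs,
        ← type0_congr hs] at h
      exact h)
    (fun t => by
      have hJ : ∀ᶠ u in (S.U : Filter Wd), ∀ I ∈ J, (S.acc I (t * u) ↔ S.acc I t) :=
        (Filter.eventually_all_finset J).2 fun I _ => ev_acc_U I t
      filter_upwards [hJ, ev_tau_U t, ev_stable_U t, ev_PPall t, ev_Acc (M n) t]
        with u a1 a2 a3 a4 a5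
      exact ⟨a1, a2, a3, a4, a5⟩) n
  have h2 : ∀ᶠ u in (S.U : Filter Wd), u ∈ S.Bset M n J := by
    filter_upwards [h1, S.hU n hn] with u hu hu'
    exact ⟨hu', fun x => hu n le_rfl x⟩
  exact h2

lemma Dset_mem (M : ℕ → ℕ) {n : ℕ} (hn : n ∈ S.C.lev) (J : Finset (Finset ℕ)) :
    S.Dset M n J ∈ S.V := by
  have h1 := ev_all_stems (φ := fun t u =>
    (∀ I ∈ J, (S.acc I (t * u) ↔ S.acc I t)) ∧
    (∀ I ∈ J, S.acc I t → cyl (t * u) ⊆ S.OI I) ∧
    (S.tau (t * u) ↔ S.tau t) ∧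
    S.stable (t * u)) (l := (S.V : Filter Wd))
    (fun n x u h => by
      have hs := sim_trunc n x
      simp only [← hs.mul, ← acc_congr hs, ← tau_congr hs] at h
      exact h)
    (fun t => by
      have hJ : ∀ᶠ u in (S.V : Filter Wd), ∀ I ∈ J, (S.acc I (t * u) ↔ S.acc I t) :=
        (Filter.eventually_all_finset J).2 fun I _ => ev_acc_V I t
      have hJ' : ∀ᶠ u in (S.V : Filter Wd), ∀ I ∈ J, S.acc I t → cyl (t * u) ⊆ S.OI I :=
        (Filter.eventually_all_finset J).2 fun I _ => by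
          by_cases hI : S.acc I t
          · have hI' := hI
            unfold acc at hI'
            filter_upwards [hI'] with u hu _
            exact hu
          · exact Filter.Eventually.of_forall fun u h' => absurd h' hI
      filter_upwards [hJ, hJ', ev_tau_V t, ev_stable_V t] with u a1 a2 a3 a4
      exact ⟨a1, a2, a3, a4⟩) n
  have h2 : ∀ᶠ u in (S.V : Filter Wd), u ∈ S.Dset M n J := by
    filter_upwards [h1, S.hV.1 n hn, S.hV.2 (M n)] with u hu hu' hu''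
    exact ⟨hu', hu'', fun x => hu n le_rfl x⟩
  exact h2

/-- a monotone bound for the rejection indices of stems -/
lemma exists_M (S : Setup) : ∃ M : ℕ → ℕ, Monotone M ∧ (∀ n, n ≤ M n) ∧
    ∀ n x, S.type0 ⟨n, x⟩ → S.PP (M n) ⟨n, x⟩ := by
  have h1 := ev_all_stems (φ := fun t (m : Wd) => S.type0 t → S.PP m.len t)
    (l := Filter.comap Wd.len Filter.atTop)
    (fun n x u h => by
      have hs := sim_trunc n x
      rw [type0_congr hs, PP_congr hs]
      exact h)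
    (fun t => by
      rw [Filter.eventually_comap]
      by_cases h : S.type0 t
      · obtain ⟨m, hm⟩ := h
        filter_upwards [Filter.eventually_ge_atTop m] with b hb a hab _
        rw [hab]
        exact PP_mono hb hm
      · exact Filter.Eventually.of_forall fun b a hab h' => absurd h' h)
  have h2 : ∀ n, ∃ m, ∀ n' ≤ n, ∀ x, S.type0 ⟨n', x⟩ → S.PP m ⟨n', x⟩ := by
    intro n
    have h3 := h1 n
    rw [Filter.eventually_comap] at h3
    obtain ⟨m, hm⟩ := h3.exists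
    exact ⟨m, fun n' hn' x => hm ⟨m, fun _ => 0⟩ rfl n' hn' x⟩
  choose f hf using h2
  refine ⟨fun n => n + ∑ i ∈ Finset.range (n + 1), f i, ?_, fun n => Nat.le_add_right _ _, ?_⟩
  · intro a b hab
    have : ∑ i ∈ Finset.range (a + 1), f i ≤ ∑ i ∈ Finset.range (b + 1), f i :=
      Finset.sum_le_sum_of_subset (Finset.range_mono (by omega))
    change a + ∑ i ∈ Finset.range (a + 1), f i ≤ b + ∑ i ∈ Finset.range (b + 1), f i
    omega
  · intro n x h
    refine PP_mono ?_ (hf n n le_rfl x h)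
    have : f n ≤ ∑ i ∈ Finset.range (n + 1), f i :=
      Finset.single_le_sum (fun i _ => Nat.zero_le (f i)) (Finset.mem_range.2 (Nat.lt_succ_self n))
    change f n ≤ n + ∑ i ∈ Finset.range (n + 1), f i
    omega

end Setup

end Pool.Agent.TauGp.CH
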