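import Pool.Agent.TauGp.CH.Word

/-!
# The two idempotent ultrafilters attached to a condition
-/

set_option autoImplicit false

namespace Pool.Agent.TauGp.CH

attribute [local instance] Ultrafilter.mul Ultrafilter.semigroup

/-- gap words -/
def GOK (C : Cond) (U : Ultrafilter Wd) : Prop :=
  ∀ p ∈ C.lev, ∀ᶠ u in (U : Filter Wd), C.G p u.len u.pt

/-- words containing long pieces of `w` -/
def WOK (C : Cond) (h : ℕ → ℕ) (V : Ultrafilter Wd) : Prop :=
  (∀ p ∈ C.lev, ∀ᶠ u in (V : Filter Wd), C.W p u.len u.pt) ∧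
  ∀ M, ∀ᶠ u in (V : Filter Wd), ∃ k, M ≤ k ∧ h k ≤ u.len ∧ ∀ i, k ≤ i → i < h k → u.pt i = C.w i

lemma isClosed_GOK (C : Cond) : IsClosed {U | GOK C U} := by
  have : {U | GOK C U} = ⋂ p ∈ C.lev, {U : Ultrafilter Wd | {u : Wd | C.G p u.len u.pt} ∈ U} := by
    ext U
    simp only [GOK, Set.mem_ofPred_eq, Set.mem_iInter]
    rfl
  rw [this]
  exact isClosed_biInter fun p _ => ultrafilter_isClosed_basic _

lemma isClosed_WOK (C : Cond) (h : ℕ → ℕ) : IsClosed {V | WOK C h V} := by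
  have : {V | WOK C h V} =
      (⋂ p ∈ C.lev, {U : Ultrafilter Wd | {u : Wd | C.W p u.len u.pt} ∈ U}) ∩
      ⋂ M : ℕ, {U : Ultrafilter Wd | {u : Wd | ∃ k, M ≤ k ∧ h k ≤ u.len ∧
        ∀ i, k ≤ i → i < h k → u.pt i = C.w i} ∈ U} := by
    ext U
    simp only [WOK, Set.mem_ofPred_eq, Set.mem_inter_iff, Set.mem_iInter]
    rfl
  rw [this]
  exact (isClosed_biInter fun p _ => ultrafilter_isClosed_basic _).inter
    (isClosed_iInter fun p => ultrafilter_isClosed_basic _)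

lemma G_mul {C : Cond} {p : ℕ} {u v : Wd} (hu : C.G p u.len u.pt) (hv : C.G u.len v.len v.pt) :
    C.G p (u * v).len (u * v).pt := by
  have hlt := (C.G_lev hv).2.2
  have : (u * v).len = v.len := by rw [mul_len]; exact max_eq_right hlt.le
  rw [this, mul_pt]
  exact C.GG (C.G_congr hu fun i _ hi => (mix_lt hi).symm)
    (C.G_congr hv fun i hi _ => (mix_ge hi).symm)

lemma W_mul {C : Cond} {p : ℕ} {u v : Wd} (hu : C.W p u.len u.pt) (hv : C.W u.len v.len v.pt) :
    C.W p (u * v).len (u * v).pt := by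
  have hlt := (C.W_lev hv).2.2
  have : (u * v).len = v.len := by rw [mul_len]; exact max_eq_right hlt.le
  rw [this, mul_pt]
  exact C.WW (C.W_congr hu fun i _ hi => (mix_lt hi).symm)
    (C.W_congr hv fun i hi _ => (mix_ge hi).symm)

lemma GW_mul {C : Cond} {p : ℕ} {u v : Wd} (hu : C.G p u.len u.pt) (hv : C.W u.len v.len v.pt) :
    C.W p (u * v).len (u * v).pt := by
  have hlt := (C.W_lev hv).2.2
  have : (u * v).len = v.len := by rw [mul_len]; exact max_eq_right hlt.le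
  rw [this, mul_pt]
  exact C.GW (C.G_congr hu fun i _ hi => (mix_lt hi).symm)
    (C.W_congr hv fun i hi _ => (mix_ge hi).symm)

lemma WG_mul {C : Cond} {p : ℕ} {u v : Wd} (hu : C.W p u.len u.pt) (hv : C.G u.len v.len v.pt) :
    C.W p (u * v).len (u * v).pt := by
  have hlt := (C.G_lev hv).2.2
  have : (u * v).len = v.len := by rw [mul_len]; exact max_eq_right hlt.le
  rw [this, mul_pt]
  exact C.WG (C.W_congr hu fun i _ hi => (mix_lt hi).symm)
    (C.G_congr hv fun i hi _ => (mix_ge hi).symm)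

lemma GOK.mul {C : Cond} {U V : Ultrafilter Wd} (hU : GOK C U) (hV : GOK C V) :
    GOK C (U * V) := by
  intro p hp
  rw [Ultrafilter.eventually_mul]
  filter_upwards [hU p hp] with u hu
  filter_upwards [hV u.len (C.G_lev hu).2.1] with v hv
  exact G_mul hu hv

/-- the condition on long pieces of `w` -/
def Hit (C : Cond) (h : ℕ → ℕ) (M : ℕ) (u : Wd) : Prop :=
  ∃ k, M ≤ k ∧ h k ≤ u.len ∧ ∀ i, k ≤ i → i < h k → u.pt i = C.w i

lemma Hit.mul_right {C : Cond} {h : ℕ → ℕ} {M : ℕ} {u : Wd} (hu : Hit C h M u) (v : Wd) :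
    Hit C h M (u * v) := by
  obtain ⟨k, hk, hk', H⟩ := hu
  refine ⟨k, hk, hk'.trans (le_max_left _ _), fun i h1 h2 => ?_⟩
  rw [mul_pt, mix_lt (lt_of_lt_of_le h2 hk')]
  exact H i h1 h2

lemma Hit.mul_left {C : Cond} {h : ℕ → ℕ} {M : ℕ} {u v : Wd} (hv : Hit C h (max M u.len) v) :
    Hit C h M (u * v) := by
  obtain ⟨k, hk, hk', H⟩ := hv
  refine ⟨k, (le_max_left _ _).trans hk, hk'.trans (le_max_right _ _), fun i h1 h2 => ?_⟩
  rw [mul_pt, mix_ge (((le_max_right _ _).trans hk).trans h1)]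
  exact H i h1 h2

lemma WOK.mul {C : Cond} {h : ℕ → ℕ} {U V : Ultrafilter Wd} (hU : WOK C h U) (hV : WOK C h V) :
    WOK C h (U * V) := by
  refine ⟨fun p hp => ?_, fun M => ?_⟩
  · rw [Ultrafilter.eventually_mul]
    filter_upwards [hU.1 p hp] with u hu
    filter_upwards [hV.1 u.len (C.W_lev hu).2.1] with v hv
    exact W_mul hu hv
  · rw [Ultrafilter.eventually_mul]
    filter_upwards [hU.2 M] with u hu
    exact Filter.Eventually.of_forall fun v => Hit.mul_right hu v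

lemma WOK.mul_G {C : Cond} {h : ℕ → ℕ} {U V : Ultrafilter Wd} (hU : WOK C h U) (hV : GOK C V) :
    WOK C h (U * V) := by
  refine ⟨fun p hp => ?_, fun M => ?_⟩
  · rw [Ultrafilter.eventually_mul]
    filter_upwards [hU.1 p hp] with u hu
    filter_upwards [hV u.len (C.W_lev hu).2.1] with v hv
    exact WG_mul hu hv
  · rw [Ultrafilter.eventually_mul]
    filter_upwards [hU.2 M] with u hu
    exact Filter.Eventually.of_forall fun v => Hit.mul_right hu v

lemma WOK.G_mul {C : Cond} {h : ℕ → ℕ} {U V : Ultrafilter Wd} (hU : GOK C U) (hV : WOK C h V) :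
    WOK C h (U * V) := by
  refine ⟨fun p hp => ?_, fun M => ?_⟩
  · rw [Ultrafilter.eventually_mul]
    filter_upwards [hU p hp] with u hu
    filter_upwards [hV.1 u.len (C.G_lev hu).2.1] with v hv
    exact GW_mul hu hv
  · rw [Ultrafilter.eventually_mul]
    refine Filter.Eventually.of_forall fun u => ?_
    filter_upwards [hV.2 (max M u.len)] with v hv
    exact Hit.mul_left hv

lemma exists_GOK (C : Cond) : ∃ U, GOK C U := by
  obtain ⟨U, hU⟩ := exists_ultrafilter_of_seq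
    (fun n => {u : Wd | ∀ p ∈ C.lev, p ≤ n → C.G p u.len u.pt})
    (fun a b hab u hu p hp hpa => hu p hp (hpa.trans hab))
    (fun n => by
      obtain ⟨q, hq, hnq⟩ := C.exists_lev n
      exact ⟨⟨q, C.ρ⟩, fun p hp hpn => C.ρG hp hq (lt_of_le_of_lt hpn hnq)⟩)
  refine ⟨U, fun p hp => ?_⟩
  filter_upwards [hU p] with u hu
  exact hu p hp le_rfl

lemma exists_WOK (C : Cond) (h : ℕ → ℕ) : ∃ V, WOK C h V := by
  obtain ⟨U, hU⟩ := exists_ultrafilter_of_seq
    (fun n => {u : Wd | (∀ p ∈ C.lev, p ≤ n → C.W p u.len u.pt) ∧ Hit C h n u})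
    (fun a b hab u hu => ⟨fun p hp hpa => hu.1 p hp (hpa.trans hab), by
      obtain ⟨k, hk, hk'⟩ := hu.2
      exact ⟨k, hab.trans hk, hk'⟩⟩)
    (fun n => by
      obtain ⟨q, hq, hnq⟩ := C.exists_lev (max n (h n))
      exact ⟨⟨q, C.w⟩, fun p hp hpn => C.wW hp hq
        (lt_of_le_of_lt (hpn.trans (le_max_left _ _)) hnq),
        n, le_rfl, (le_max_right _ _).trans hnq.le, fun i _ _ => rfl⟩)
  refine ⟨U, fun p hp => ?_, fun M => ?_⟩
  · filter_upwards [hU p] with u hu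
    exact hu.1 p hp le_rfl
  · filter_upwards [hU M] with u hu
    exact hu.2

/-- the idempotent for the gap words -/
theorem exists_U (C : Cond) : ∃ U : Ultrafilter Wd, GOK C U ∧ U * U = U ∧
    ∀ B ∈ U, ∃ N, ∀ i, N ≤ i → ∀ c : Fin 3, c ≠ 2 → ∃ v ∈ B, i < v.len ∧ v.pt i = c := by
  obtain ⟨U, hU, hUU, hmin⟩ := exists_minimal_idempotent
    (fun r : Ultrafilter Wd => Ultrafilter.continuous_mul_left r) {U | GOK C U}
    (exists_GOK C) (isClosed_GOK C).isCompact (fun x hx y hy => GOK.mul hx hy)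
  refine ⟨U, hU, hUU, fun B hB => ?_⟩
  by_contra hcon
  push Not at hcon
  -- bad positions
  obtain ⟨W, hW⟩ := exists_ultrafilter_of_seq
    (fun n => {u : Wd | (∀ p ∈ C.lev, p ≤ n → C.G p u.len u.pt) ∧
      ∃ i, n ≤ i ∧ i < u.len ∧ ∀ v ∈ B, i < v.len → v.pt i ≠ u.pt i})
    (fun a b hab u hu => ⟨fun p hp hpa => hu.1 p hp (hpa.trans hab), by
      obtain ⟨i, hi, hi'⟩ := hu.2
      exact ⟨i, hab.trans hi, hi'⟩⟩)
    (fun n => by
      obtain ⟨A, hA, hnA⟩ := C.exists_lev n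
      obtain ⟨N, hN⟩ := C.cov (A + 1)
      obtain ⟨i, hi, c, hc, hbad⟩ := hcon (max N n)
      obtain ⟨p, q, x, h1, h2, h3, h4, h5⟩ := hN i (le_of_max_le_left hi) c hc
      have hp := (C.G_lev h4).1
      refine ⟨⟨q, mix p C.ρ x⟩, fun p' hp' hpn => ?_, i, le_of_max_le_right hi, h3,
        fun v hv hiv => ?_⟩
      · exact C.GG (C.G_congr (C.ρG hp' hp (by omega)) fun i _ hi => (mix_lt hi).symm)
          (C.G_congr h4 fun i hi _ => (mix_ge hi).symm)
      · change v.pt i ≠ mix p C.ρ x i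
        rw [mix_ge h2, h5]
        exact hbad v hv hiv)
  have hWK : GOK C W := by
    intro p hp
    filter_upwards [hW p] with u hu
    exact hu.1 p hp le_rfl
  obtain ⟨X, hX, hXU⟩ := hmin W hWK
  have h1 : ∀ᶠ v in ((X * (W * U) : Ultrafilter Wd) : Filter Wd), v ∈ B := by
    rw [hXU]; exact hB
  rw [Ultrafilter.eventually_mul] at h1
  obtain ⟨x, hx⟩ := h1.exists
  rw [Ultrafilter.eventually_mul] at hx
  obtain ⟨y, hy, hy'⟩ := (hx.and (hW x.len)).exists
  obtain ⟨z, hz⟩ := hy.exists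
  obtain ⟨-, i, hi1, hi2, hi3⟩ := hy'
  refine hi3 _ hz ?_ ?_
  · rw [mul_len, mul_len]; omega
  · rw [mul_pt, mix_ge hi1, mul_pt, mix_lt hi2]

/-- the idempotent for the words with stars -/
theorem exists_V (C : Cond) (h : ℕ → ℕ) (U : Ultrafilter Wd) (hU : GOK C U) (hUU : U * U = U) :
    ∃ V : Ultrafilter Wd, WOK C h V ∧ V * V = V ∧ U * V = V ∧ V * U = V := by
  obtain ⟨V₀, ⟨W, hW, rfl⟩, hV₀⟩ := exists_idempotent_in_compact_subsemigroup
    (fun r : Ultrafilter Wd => Ultrafilter.continuous_mul_left r)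
    ((· * U) '' {V | WOK C h V}) (Set.Nonempty.image _ (exists_WOK C h))
    ((isClosed_WOK C h).isCompact.image (Ultrafilter.continuous_mul_left U)) (by
      rintro _ ⟨x, hx, rfl⟩ _ ⟨y, hy, rfl⟩
      exact ⟨x * U * y, WOK.mul (WOK.mul_G hx hU) hy, mul_assoc _ _ _⟩)
  simp only at hV₀
  have hVU : (W * U) * U = W * U := by rw [mul_assoc, hUU]
  refine ⟨U * (W * U), WOK.G_mul hU (WOK.mul_G hW hU), ?_, ?_, ?_⟩
  · calc U * (W * U) * (U * (W * U)) = U * (((W * U) * U) * (W * U)) := by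
          simp only [mul_assoc]
      _ = U * ((W * U) * (W * U)) := by rw [hVU]
      _ = U * (W * U) := by rw [hV₀]
  · rw [← mul_assoc, hUU]
  · rw [mul_assoc, hVU]

end Pool.Agent.TauGp.CH
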