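import Pool.Agent.TauGp.CH.Cond

/-!
# Words, and idempotent ultrafilters on words
-/

set_option autoImplicit false

namespace Pool.Agent.TauGp.CH

attribute [local instance] Ultrafilter.mul Ultrafilter.semigroup

/-- An idempotent in a minimal closed left ideal of a compact right topological semigroup. -/
theorem exists_minimal_idempotent {M : Type*} [Semigroup M] [TopologicalSpace M] [T2Space M]
    (hcont : ∀ r : M, Continuous (· * r)) (K : Set M) (hK : K.Nonempty) (Kc : IsCompact K)
    (Kmul : ∀ x ∈ K, ∀ y ∈ K, x * y ∈ K) :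
    ∃ u ∈ K, u * u = u ∧ ∀ w ∈ K, ∃ x ∈ K, x * (w * u) = u := by
  let S : Set (Set M) :=
    { N | N ⊆ K ∧ IsClosed N ∧ N.Nonempty ∧ ∀ k ∈ K, ∀ m ∈ N, k * m ∈ N }
  obtain ⟨L, hL⟩ : ∃ L, Minimal (· ∈ S) L := by
    refine zorn_superset_nonempty S (fun c hcs hc hcne => ?_) K
      ⟨subset_rfl, Kc.isClosed, hK, Kmul⟩ |>.imp fun L h => h.2
    refine ⟨⋂₀ c, ⟨?_, isClosed_sInter fun t ht => (hcs ht).2.1, ?_, ?_⟩, fun s hs =>
      Set.sInter_subset_of_mem hs⟩
    · obtain ⟨t, ht⟩ := hcne
      exact (Set.sInter_subset_of_mem ht).trans (hcs ht).1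
    · rw [Set.sInter_eq_iInter]
      have := hcne.coe_sort
      exact IsCompact.nonempty_iInter_of_directed_nonempty_isCompact_isClosed _
        (DirectedOn.directed_val (IsChain.directedOn hc.symm))
        (fun i => (hcs i.prop).2.2.1) (fun i => Kc.of_isClosed_subset (hcs i.prop).2.1
          (hcs i.prop).1) (fun i => (hcs i.prop).2.1)
    · intro k hk m hm
      rw [Set.mem_sInter] at hm ⊢
      exact fun t ht => (hcs ht).2.2.2 k hk m (hm t ht)
  obtain ⟨hLK, hLc, hLne, hLmul⟩ := hL.prop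
  obtain ⟨u, hu, huu⟩ := exists_idempotent_in_compact_subsemigroup hcont L hLne
    (Kc.of_isClosed_subset hLc hLK) (fun x hx y hy => hLmul x (hLK hx) y hy)
  refine ⟨u, hLK hu, huu, fun w hw => ?_⟩
  have h1 : (· * (w * u)) '' K = L := by
    apply hL.eq_of_subset
    · refine ⟨?_, ?_, ?_, ?_⟩
      · rintro _ ⟨x, hx, rfl⟩
        exact hLK (hLmul x hx _ (hLmul w hw u hu))
      · exact (Kc.image (hcont (w * u))).isClosed
      · exact hK.image _
      · rintro k hk _ ⟨x, hx, rfl⟩
        exact ⟨k * x, Kmul k hk x hx, mul_assoc _ _ _⟩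
    · rintro _ ⟨x, hx, rfl⟩
      exact hLmul x hx _ (hLmul w hw u hu)
  have h2 : u ∈ (· * (w * u)) '' K := h1 ▸ hu
  obtain ⟨x, hx, hxu⟩ := h2
  exact ⟨x, hx, hxu⟩

/-- Words: a length and a point (only the values below the length matter). -/
@[ext] structure Wd where
  /-- length -/
  len : ℕ
  /-- letters -/
  pt : Pt

/-- The product: `t` continues `s` from the position `s.len` on. -/
instance : Semigroup Wd where
  mul s t := ⟨max s.len t.len, mix s.len s.pt t.pt⟩
  mul_assoc := by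
    rintro ⟨a, x⟩ ⟨b, y⟩ ⟨c, z⟩
    apply Wd.ext
    · exact max_assoc a b c
    · change mix (max a b) (mix a x y) z = mix a x (mix b y z)
      funext i
      simp only [mix]
      split_ifs with h1 h2 h3 <;> first | rfl | omega

lemma mul_len (s t : Wd) : (s * t).len = max s.len t.len := rfl

lemma mul_pt (s t : Wd) : (s * t).pt = mix s.len s.pt t.pt := rfl

/-- The set of points extending a word -/
def cyl (t : Wd) : Set Pt := {x | ∀ i, i < t.len → x i = t.pt i}

lemma cyl_mul (s t : Wd) : cyl (s * t) ⊆ cyl s := by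
  intro x hx i hi
  have := hx i (lt_of_lt_of_le hi (le_max_left _ _))
  rwa [mul_pt, mix_lt hi] at this

lemma mix_congr {n : ℕ} {x x' y : Pt} (h : ∀ i, i < n → x i = x' i) : mix n x y = mix n x' y := by
  funext i
  simp only [mix]
  split_ifs with h1
  · exact h i h1
  · rfl

/-- Words with the same letters below the same length have the same products. -/
lemma mul_congr_left {n : ℕ} {x x' : Pt} (h : ∀ i, i < n → x i = x' i) (t : Wd) :
    (⟨n, x⟩ : Wd) * t = ⟨n, x'⟩ * t := by
  apply Wd.ext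
  · rfl
  · exact mix_congr h

/-- the canonical finite set of stems of length `n` -/
lemma finite_trunc (n : ℕ) : (Set.range fun x : Pt => mix n x (fun _ => 0)).Finite := by
  let f : (Fin n → Fin 3) → Pt := fun g i => if h : i < n then g ⟨i, h⟩ else 0
  refine (Set.finite_range f).subset ?_
  rintro _ ⟨x, rfl⟩
  refine ⟨fun i => x i, ?_⟩
  funext i
  simp only [f, mix]
  split_ifs <;> rfl

lemma ev_all_stems {φ : Wd → Wd → Prop} {l : Filter Wd}
    (hφ : ∀ n x u, φ ⟨n, mix n x (fun _ => 0)⟩ u → φ ⟨n, x⟩ u)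
    (h : ∀ t, ∀ᶠ u in l, φ t u) (N : ℕ) : ∀ᶠ u in l, ∀ n ≤ N, ∀ x, φ ⟨n, x⟩ u := by
  have h1 : ∀ n, ∀ᶠ u in l, ∀ x, φ ⟨n, x⟩ u := by
    intro n
    have h2 : ∀ᶠ u in l, ∀ y ∈ (Set.range fun x : Pt => mix n x (fun _ => 0)), φ ⟨n, y⟩ u :=
      (Filter.eventually_all_finite (finite_trunc n)).2 fun y _ => h _
    filter_upwards [h2] with u hu x
    exact hφ n x u (hu _ ⟨x, rfl⟩)
  have h3 : ∀ᶠ u in l, ∀ n ∈ Set.Iic N, ∀ x, φ ⟨n, x⟩ u :=
    (Filter.eventually_all_finite (Set.finite_Iic N)).2 fun n _ => h1 n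
  filter_upwards [h3] with u hu n hn x
  exact hu n hn x

/-- The ultrafilters generated by a decreasing family with nonempty members -/
lemma exists_ultrafilter_of_seq {α : Type*} (s : ℕ → Set α) (hs : Antitone s)
    (hne : ∀ n, (s n).Nonempty) : ∃ U : Ultrafilter α, ∀ n, s n ∈ U := by
  have : (⨅ n, Filter.principal (s n)).NeBot := by
    refine Filter.iInf_neBot_of_directed' (directed_of_isDirected_le fun a b hab => ?_)
      fun n => Filter.principal_neBot_iff.2 (hne n)
    exact Filter.principal_mono.2 (hs hab)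
  refine ⟨Ultrafilter.of (⨅ n, Filter.principal (s n)), fun n => ?_⟩
  exact Ultrafilter.of_le _ (Filter.mem_iInf_of_mem n (Filter.mem_principal_self _))

end Pool.Agent.TauGp.CH
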